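import Pool.Agent.Y673.PQ.Str

/-!
The exceptional set for all number fields of bounded degree (helper673).
-/

set_option autoImplicit false

namespace Pool.Agent.Y673.PQ

open Polynomial NumberField Module

/-- the preperiodic points in a number field are of bounded degree -/
theorem preK_sub {K : Type} [Field K] [NumberField K] {d D : ℕ} (hKD : finrank ℚ K ≤ D)
    (σ : K →+* ℂ) (a b : K) :
    σ '' {z : K | (Set.range fun k : ℕ => (fun w : K => a * w ^ d + b)^[k] z).Finite} ⊆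
      PreD d D (σ a) (σ b) := by
  rintro _ ⟨z, hz, rfl⟩
  set σ' : K →ₐ[ℚ] ℂ := σ.toRatAlgHom with hσ'
  have e : K ≃ₐ[ℚ] σ'.fieldRange := AlgEquiv.ofInjectiveField σ'
  have hfin : FiniteDimensional ℚ σ'.fieldRange := e.toLinearEquiv.finiteDimensional
  have hdeg : finrank ℚ σ'.fieldRange = finrank ℚ K := e.toLinearEquiv.finrank_eq.symm
  have hle : IntermediateField.adjoin ℚ {σ a, σ b, σ z} ≤ σ'.fieldRange := by
    rw [IntermediateField.adjoin_le_iff]
    rintro x (rfl | rfl | hx)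
    · exact ⟨a, rfl⟩
    · exact ⟨b, rfl⟩
    · rw [Set.mem_singleton_iff] at hx
      exact ⟨z, hx.symm⟩
  refine ⟨?_, ?_, ?_⟩
  · exact FiniteDimensional.of_injective (IntermediateField.inclusion hle).toLinearMap
      (IntermediateField.inclusion hle).injective
  · exact (IntermediateField.finrank_le_of_le_right hle).trans (hdeg.le.trans hKD)
  · have hsc : Function.Semiconj σ (fun w : K => a * w ^ d + b)
        (fun w : ℂ => σ a * w ^ d + σ b) := by
      intro w
      show σ (a * w ^ d + b) = σ a * (σ w) ^ d + σ b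
      rw [map_add, map_mul, map_pow]
    apply (hz.image σ).subset
    rintro _ ⟨k, rfl⟩
    exact ⟨_, ⟨k, rfl⟩, (hsc.iterate_right k) z⟩

theorem few_set {d : ℕ} (hd : 2 ≤ d) (D : ℕ) (ε : ℝ) (hε : 0 < ε) :
    ∃ (N : ℕ) (C : ℝ) (E : Set ℂ),
      (∀ X : ℝ, 1 ≤ X → {t | t ∈ E ∧ Ht D X t}.Finite ∧
        ({t | t ∈ E ∧ Ht D X t}.ncard : ℝ) ≤ C * X ^ ε) ∧
      ∀ a b : ℂ, a * b ^ (d - 1) ∉ E → (PreD d D a b).Finite ∧ (PreD d D a b).ncard ≤ N := by
  obtain ⟨N, C, h⟩ := few_unicrit' hd D ε hε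
  refine ⟨N, C, {t | ∃ a b : ℂ, a * b ^ (d - 1) = t ∧ (N : ℕ∞) < (PreD d D a b).encard},
    fun X hX => ?_, fun a b hab => ?_⟩
  · have h1 := h X hX
    have h2 : {t : ℂ | t ∈ {t | ∃ a b : ℂ, a * b ^ (d - 1) = t ∧ (N : ℕ∞) < (PreD d D a b).encard} ∧
        Ht D X t} = {t : ℂ | Ht D X t ∧ ∃ a b : ℂ, a * b ^ (d - 1) = t ∧
        (N : ℕ∞) < (PreD d D a b).encard} := by
      ext t
      simp only [Set.mem_setOf_eq]
      exact and_comm
    rw [h2]
    exact h1
  · have h3 : (PreD d D a b).encard ≤ N := by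
      by_contra hcon
      exact hab ⟨a, b, rfl, not_le.1 hcon⟩
    have h4 : (PreD d D a b).Finite := Set.finite_of_encard_le_coe h3
    refine ⟨h4, ?_⟩
    rw [← h4.cast_ncard_eq] at h3
    exact_mod_cast h3

end Pool.Agent.Y673.PQ
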