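import Pool.Agent.Y673.PQ.Cnt
import Pool.Agent.Y673.PP.Fin

/-!
The asymptotic count of exceptional parameters over varying number fields (helper673).
-/

set_option autoImplicit false

namespace Pool.Agent.Y673.PQ

open Polynomial NumberField Module
open Pool.Agent.Y673.PP (orb E2 Pt gm gt hm Gd it Prep)

theorem YTb (d D : ℕ) (X : ℝ) : (2 * X ^ (d + 1)) * Tb D (2 * X ^ (d + 1)) =
    (2 * (((D : ℝ) + 1) ^ 2 * 2 ^ D * (2 * ((D : ℝ) + 1)) ^ (2 * D))) * X ^ ((d + 1) * (2 * D + 1)) := by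
  unfold Tb
  rw [pow_mul X (d + 1) (2 * D + 1), pow_succ (X ^ (d + 1)) (2 * D)]
  have h1 : ((D : ℝ) + 1) * (2 * X ^ (d + 1)) = (2 * ((D : ℝ) + 1)) * X ^ (d + 1) := by ring
  rw [h1, mul_pow (2 * ((D : ℝ) + 1)) (X ^ (d + 1)) (2 * D)]
  ring

set_option maxHeartbeats 1000000 in
theorem count_exc' {d : ℕ} (hd : 2 ≤ d) (D : ℕ) (hD : 1 ≤ D) (ε : ℝ) (hε : 0 < ε) :
    ∃ (N : ℕ) (C : ℝ), 0 ≤ C ∧ ∀ X : ℝ, 1 ≤ X → ∀ S : Finset ℂ, (∀ c ∈ S, ∃ z : ℂ,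
      Gl d D (2 * X ^ (d + 1)) c z ∧ ¬ Gd d N c z) → (S.card : ℝ) ≤ C * X ^ ε := by
  set η : ℝ := min 1 (ε / (4 * (2 * D + 1))) with hη
  have hη0 : 0 < η := by
    rw [hη]
    exact lt_min one_pos (by positivity)
  have hη1 : η ≤ 1 := min_le_left _ _
  have hηε : η * (4 * (2 * D + 1)) ≤ ε := by
    have h1 : η ≤ ε / (4 * (2 * D + 1)) := min_le_right _ _
    rwa [le_div_iff₀ (by positivity)] at h1
  obtain ⟨t, ht⟩ := exists_nat_ge (((d : ℝ) + 1) / η)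
  have ht' : (d : ℝ) + 1 ≤ t * η := by rwa [div_le_iff₀ hη0] at ht
  have ht1 : 1 ≤ t := by
    rcases Nat.eq_zero_or_pos t with h0 | h0
    · rw [h0] at ht'
      have : (0 : ℝ) ≤ d := Nat.cast_nonneg _
      simp at ht'
      linarith
    · exact h0
  obtain ⟨A, B, C, M₃, s₁, s₂, T₁, T₂, hpl⟩ := plane_count' hd D t hD
  obtain ⟨Zc, hZc⟩ := SU.exists_prime_not_dvd
  obtain ⟨c₀, hc₀, hz0⟩ := PP.exists_z0 hη0 ht' ht1 (s₁ + s₂)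
  set κ : ℝ := 2 * (((D : ℝ) + 1) ^ 2 * 2 ^ D * (2 * ((D : ℝ) + 1)) ^ (2 * D)) with hκ
  set m₀ : ℕ := (d + 1) * (2 * D + 1) with hm₀
  have hκ0 : 0 ≤ κ := by positivity
  -- the first set of primes
  obtain ⟨l₁, hl₁, hlog₁⟩ := PP.exists_l' hη0 (κ ^ D + 1) (by
    have : (0 : ℝ) ≤ κ ^ D := by positivity
    linarith) (m₀ * D)
  set c₁ : ℝ := (c₀ + l₁ + 1) ^ 2 + Zc with hc₁
  have hc₁1 : 1 ≤ c₁ := by
    have : (0 : ℝ) ≤ Zc := Nat.cast_nonneg _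
    nlinarith
  -- the second set of primes
  set n₁ : ℕ := D * (t * T₁ + 1) with hn₁
  set n₂ : ℕ := d * B + A with hn₂
  set E : ℝ := (κ * ((A + 1) * (B + 1) * (((A : ℝ) + 1) ^ (A + 1) * (C * (2 * c₁ ^ n₁)))) *
    2 ^ n₂) ^ D with hE
  have hE0 : 0 ≤ E := by positivity
  set m₂ : ℕ := (m₀ + 2 * n₁ + (d + 1) * n₂) * D with hm₂
  obtain ⟨l₂, hl₂, hlog₂⟩ := PP.exists_l' hη0 (E + 1) (by linarith) m₂
  set c₂ : ℝ := (c₀ + l₂ + 1) ^ 2 + Zc with hc₂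
  have hc₂1 : 1 ≤ c₂ := by
    have : (0 : ℝ) ≤ Zc := Nat.cast_nonneg _
    nlinarith
  refine ⟨(d * d) ^ A, (B + (A + 1) * (M₃ * ((c₂ + 1) * ((D + 1) * c₂ ^ (2 * D))))) *
    ((c₁ + 1) * ((D + 1) * c₁ ^ (2 * D))), by positivity, fun X hX S hS => ?_⟩
  have hX0 : 0 < X := by linarith
  have hXη : 1 ≤ X ^ η := Real.one_le_rpow hX hη0.le
  have hXη0 : 0 < X ^ η := by linarith
  have hXη2 : X ^ η ≤ X := by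
    calc X ^ η ≤ X ^ (1 : ℝ) := Real.rpow_le_rpow_of_exponent_le hX hη1
      _ = X := Real.rpow_one X
  set P : ℝ := (X ^ η) ^ 2 with hP
  have hP1 : 1 ≤ P := one_le_pow₀ hXη
  have hPX : P ≤ X ^ 2 := pow_le_pow_left₀ hXη0.le hXη2 2
  obtain ⟨Z₀, hZ₀, hsz⟩ := hz0 X hX
  set Y : ℝ := 2 * X ^ (d + 1) with hY
  have hXd : 1 ≤ X ^ (d + 1) := one_le_pow₀ hX
  have hY1 : 1 ≤ Y := by linarith
  have hYTb : Y * Tb D Y = κ * X ^ m₀ := by rw [hY, YTb]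
  -- choice of `Z₁`
  set W₁ : ℕ := ⌈(Y * Tb D Y * 1) ^ D⌉₊ with hW₁
  have hW₁Y : (Y * Tb D Y * 1) ^ D ≤ W₁ := Nat.le_ceil _
  have hW₁X : (W₁ : ℝ) ≤ (κ ^ D + 1) * X ^ (m₀ * D) := by
    have h3 : (Y * Tb D Y * 1) ^ D = κ ^ D * X ^ (m₀ * D) := by
      rw [mul_one, hYTb, mul_pow, ← pow_mul]
    have h1 := Nat.ceil_lt_add_one (a := (Y * Tb D Y * 1) ^ D) (by rw [h3]; positivity)
    have h2 : 1 ≤ X ^ (m₀ * D) := one_le_pow₀ hX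
    calc (W₁ : ℝ) ≤ κ ^ D * X ^ (m₀ * D) + 1 * X ^ (m₀ * D) := by linarith
      _ = _ := by ring
  obtain ⟨L₁, hL₁, hL₁'⟩ := hlog₁ X hX W₁ hW₁X
  set Z₁ : ℕ := (Z₀ + L₁ + 1) ^ 2 + Zc with hZ₁
  have hZcP : (Zc : ℝ) ≤ Zc * P := le_mul_of_one_le_right (Nat.cast_nonneg _) hP1
  have hZ₁P : (Z₁ : ℝ) ≤ c₁ * P := by
    rw [hZ₁, hc₁]
    push_cast
    have h1 : (Z₀ : ℝ) + L₁ + 1 ≤ (c₀ + l₁ + 1) * X ^ η := by linarith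
    have h2 : ((Z₀ : ℝ) + L₁ + 1) ^ 2 ≤ ((c₀ + l₁ + 1) * X ^ η) ^ 2 := by gcongr
    rw [mul_pow] at h2
    linarith
  have hpr₁ := hZc Z₀ W₁ L₁ Z₁ (Nat.le_add_left _ _) hL₁ (Nat.le_add_right _ _)
  -- choice of `Z₂`
  set R : ℝ := (Y * Tb D Y * ((A + 1) * (B + 1) *
    (((A + 1) ^ (A + 1) * (C * ((Z₁ ^ D) ^ (t * T₁ + 1) + 1)) : ℕ) : ℝ) * Y ^ (d * B + A))) ^ D
    with hR
  have hR0 : 0 ≤ R := by
    rw [hR, hYTb]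
    positivity
  set W₂ : ℕ := ⌈R⌉₊ with hW₂
  have hRX : R ≤ E * X ^ m₂ := by
    have h1 : (Z₁ : ℝ) ≤ c₁ * X ^ 2 := hZ₁P.trans (by gcongr)
    have h2 : ((Z₁ : ℝ) ^ D) ^ (t * T₁ + 1) + 1 ≤ 2 * c₁ ^ n₁ * (X ^ 2) ^ n₁ := by
      have h3 : ((Z₁ : ℝ) ^ D) ^ (t * T₁ + 1) ≤ (c₁ * X ^ 2) ^ n₁ := by
        rw [← pow_mul]
        gcongr
      have h4 : 1 ≤ (c₁ * X ^ 2) ^ n₁ := by
        apply one_le_pow₀
        have : 1 ≤ X ^ 2 := one_le_pow₀ hX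
        nlinarith
      rw [mul_pow] at h3 h4
      linarith
    have h5 : (((A + 1) ^ (A + 1) * (C * ((Z₁ ^ D) ^ (t * T₁ + 1) + 1)) : ℕ) : ℝ) ≤
        ((A : ℝ) + 1) ^ (A + 1) * (C * (2 * c₁ ^ n₁ * (X ^ 2) ^ n₁)) := by
      push_cast
      gcongr
    calc R ≤ (κ * X ^ m₀ * ((A + 1) * (B + 1) *
          (((A : ℝ) + 1) ^ (A + 1) * (C * (2 * c₁ ^ n₁ * (X ^ 2) ^ n₁))) * Y ^ n₂)) ^ D := by
          rw [hR, hYTb]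
          gcongr
      _ = E * X ^ m₂ := by
          rw [hE, hm₂, pow_mul X (m₀ + 2 * n₁ + (d + 1) * n₂) D, ← mul_pow, hY]
          congr 1
          rw [mul_pow 2 (X ^ (d + 1)) n₂, ← pow_mul X (d + 1) n₂, ← pow_mul X 2 n₁,
            pow_add X (m₀ + 2 * n₁), pow_add X m₀ (2 * n₁)]
          ring
  have hW₂R : R ≤ W₂ := Nat.le_ceil _
  have hW₂X : (W₂ : ℝ) ≤ (E + 1) * X ^ m₂ := by
    have h1 := Nat.ceil_lt_add_one hR0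
    have h2 : 1 ≤ X ^ m₂ := one_le_pow₀ hX
    calc (W₂ : ℝ) ≤ E * X ^ m₂ + X ^ m₂ := by linarith
      _ = _ := by ring
  obtain ⟨L₂, hL₂, hL₂'⟩ := hlog₂ X hX W₂ hW₂X
  set Z₂ : ℕ := (Z₀ + L₂ + 1) ^ 2 + Zc with hZ₂
  have hZ₂P : (Z₂ : ℝ) ≤ c₂ * P := by
    rw [hZ₂, hc₂]
    push_cast
    have h1 : (Z₀ : ℝ) + L₂ + 1 ≤ (c₀ + l₂ + 1) * X ^ η := by linarith
    have h2 : ((Z₀ : ℝ) + L₂ + 1) ^ 2 ≤ ((c₀ + l₂ + 1) * X ^ η) ^ 2 := by gcongr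
    rw [mul_pow] at h2
    linarith
  have hpr₂ := hZc Z₀ W₂ L₂ Z₂ (Nat.le_add_left _ _) hL₂ (Nat.le_add_right _ _)
  -- the count
  have hcount := hpl Y hY1 Z₀ Z₁ W₁ Z₂ W₂ (hsz s₁ T₁ (by omega)) (hsz s₂ T₂ (by omega))
    hpr₁ hpr₂ hW₁Y hW₂R S hS
  have hcr : (S.card : ℝ) ≤ (B + (A + 1) * (M₃ * ((Z₂ + 1) * ((D + 1) * (Z₂ : ℝ) ^ (2 * D))))) *
      ((Z₁ + 1) * ((D + 1) * (Z₁ : ℝ) ^ (2 * D))) := by exact_mod_cast hcount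
  refine hcr.trans ?_
  have f1 : ((Z₁ : ℝ) + 1) * ((D + 1) * (Z₁ : ℝ) ^ (2 * D)) ≤
      (c₁ + 1) * ((D + 1) * c₁ ^ (2 * D)) * P ^ (2 * D + 1) := by
    calc ((Z₁ : ℝ) + 1) * ((D + 1) * (Z₁ : ℝ) ^ (2 * D)) ≤
        ((c₁ + 1) * P) * ((D + 1) * (c₁ * P) ^ (2 * D)) := by
          have : (Z₁ : ℝ) + 1 ≤ (c₁ + 1) * P := by linarith
          gcongr
      _ = _ := by rw [mul_pow, pow_succ]; ring
  have f2 : ((Z₂ : ℝ) + 1) * ((D + 1) * (Z₂ : ℝ) ^ (2 * D)) ≤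
      (c₂ + 1) * ((D + 1) * c₂ ^ (2 * D)) * P ^ (2 * D + 1) := by
    calc ((Z₂ : ℝ) + 1) * ((D + 1) * (Z₂ : ℝ) ^ (2 * D)) ≤
        ((c₂ + 1) * P) * ((D + 1) * (c₂ * P) ^ (2 * D)) := by
          have : (Z₂ : ℝ) + 1 ≤ (c₂ + 1) * P := by linarith
          gcongr
      _ = _ := by rw [mul_pow, pow_succ]; ring
  set Q : ℝ := P ^ (2 * D + 1) with hQ
  have hQ1 : 1 ≤ Q := one_le_pow₀ hP1
  have f3 : (B + (A + 1) * (M₃ * (((Z₂ : ℝ) + 1) * ((D + 1) * (Z₂ : ℝ) ^ (2 * D))))) ≤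
      (B + (A + 1) * (M₃ * ((c₂ + 1) * ((D + 1) * c₂ ^ (2 * D))))) * Q := by
    have h1 : (B : ℝ) ≤ B * Q := le_mul_of_one_le_right (Nat.cast_nonneg _) hQ1
    calc (B + (A + 1) * (M₃ * (((Z₂ : ℝ) + 1) * ((D + 1) * (Z₂ : ℝ) ^ (2 * D))))) ≤
        B * Q + (A + 1) * (M₃ * ((c₂ + 1) * ((D + 1) * c₂ ^ (2 * D)) * Q)) := by gcongr
      _ = _ := by ring
  have hQX : Q * Q ≤ X ^ ε := by
    have h1 : Q * Q = X ^ (η * (4 * (2 * D + 1))) := by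
      rw [hQ, hP, ← pow_mul, ← pow_add, ← Real.rpow_natCast, ← Real.rpow_mul hX0.le]
      congr 2
      push_cast
      ring
    rw [h1]
    exact Real.rpow_le_rpow_of_exponent_le hX hηε
  calc (B + (A + 1) * (M₃ * (((Z₂ : ℝ) + 1) * ((D + 1) * (Z₂ : ℝ) ^ (2 * D))))) *
      (((Z₁ : ℝ) + 1) * ((D + 1) * (Z₁ : ℝ) ^ (2 * D))) ≤
      ((B + (A + 1) * (M₃ * ((c₂ + 1) * ((D + 1) * c₂ ^ (2 * D))))) * Q) *
        ((c₁ + 1) * ((D + 1) * c₁ ^ (2 * D)) * Q) := by gcongr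
    _ = ((B + (A + 1) * (M₃ * ((c₂ + 1) * ((D + 1) * c₂ ^ (2 * D))))) *
        ((c₁ + 1) * ((D + 1) * c₁ ^ (2 * D)))) * (Q * Q) := by ring
    _ ≤ _ := by gcongr

end Pool.Agent.Y673.PQ
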