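import Pool.Agent.Y673.PQ.Lpt
import Pool.Agent.Y673.PP.Pl

/-!
The number of exceptional parameters over varying number fields (helper673).
-/

set_option autoImplicit false

namespace Pool.Agent.Y673.PQ

open Polynomial NumberField Module
open Pool.Agent.Y673.PP (orb E2 Pt gm gt hm Gd it)

/-- the number of residue classes -/
theorem classes' {P : ∀ q f : ℕ, ℂ → MA q f → MA q f → Prop} (D Z M : ℕ) (S : Finset ℂ)
    (hS : ∀ c ∈ S, ∃ q f : ℕ, q.Prime ∧ q ≤ Z ∧ 1 ≤ f ∧ f ≤ D ∧ ∃ x y, P q f c x y)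
    (hM : ∀ q f : ℕ, q.Prime → 1 ≤ f → f ≤ D → q ≤ Z → ∀ (c₁ : ℂ) (x₀ y₀ : MA q f),
      P q f c₁ x₀ y₀ → ∀ T : Finset ℂ, T ⊆ S → (∀ c ∈ T, ∃ x y, P q f c x y ∧ x - x₀ ∈ mm q f ∧
        y - y₀ ∈ mm q f) → T.card ≤ M) :
    S.card ≤ M * ((Z + 1) * ((D + 1) * Z ^ (2 * D))) := by
  classical
  have hg : ∀ q f : ℕ, ∃ g : MA q f → ℕ, q.Prime → 1 ≤ f → (∀ x, g x < q ^ f) ∧
      ∀ x y, g x = g y → x - y ∈ mm q f := by
    intro q f
    by_cases hq : q.Prime ∧ 1 ≤ f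
    · have hfin := finite_mm hq.1 hq.2 1
      have hc := card_mm hq.1 hq.2 1
      rw [pow_one] at hfin
      rw [pow_one, pow_one] at hc
      refine ⟨fun x => (Finite.equivFin (MA q f ⧸ mm q f) (Ideal.Quotient.mk (mm q f) x) : ℕ),
        fun _ _ => ⟨fun x => ?_, fun x y hxy => ?_⟩⟩
      · rw [← hc]
        exact (Finite.equivFin (MA q f ⧸ mm q f) _).2
      · have h3 := (Finite.equivFin (MA q f ⧸ mm q f)).injective (Fin.ext hxy)
        exact Ideal.Quotient.eq.1 h3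
    · exact ⟨fun _ => 0, fun h1 h2 => absurd ⟨h1, h2⟩ hq⟩
  choose g hg using hg
  have hκ : ∀ c ∈ S, ∃ κ : ℕ × ℕ × ℕ × ℕ, κ.1.Prime ∧ κ.1 ≤ Z ∧ 1 ≤ κ.2.1 ∧ κ.2.1 ≤ D ∧
      ∃ x y, P κ.1 κ.2.1 c x y ∧ g κ.1 κ.2.1 x = κ.2.2.1 ∧ g κ.1 κ.2.1 y = κ.2.2.2 := by
    intro c hc
    obtain ⟨q, f, h1, h2, h3, h4, x, y, h5⟩ := hS c hc
    exact ⟨(q, f, g q f x, g q f y), h1, h2, h3, h4, x, y, h5, rfl, rfl⟩
  choose! κ hκ1 hκ2 hκ3 hκ4 hκ5 using hκ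
  have himg : (S.image κ).card ≤ (Z + 1) * ((D + 1) * Z ^ (2 * D)) := by
    have h1 : S.image κ ⊆ Finset.range (Z + 1) ×ˢ (Finset.range (D + 1) ×ˢ
        (Finset.range (Z ^ D) ×ˢ Finset.range (Z ^ D))) := by
      intro k hk
      obtain ⟨c, hc, rfl⟩ := Finset.mem_image.1 hk
      obtain ⟨x, y, -, h6, h7⟩ := hκ5 c hc
      obtain ⟨h8, -⟩ := hg _ _ (hκ1 c hc) (hκ3 c hc)
      have h9 := h8 x
      have h10 := h8 y
      have h11 : (κ c).1 ^ (κ c).2.1 ≤ Z ^ D :=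
        (Nat.pow_le_pow_left (hκ2 c hc) _).trans
          (Nat.pow_le_pow_right ((hκ1 c hc).pos.trans_le (hκ2 c hc)) (hκ4 c hc))
      have h12 := hκ2 c hc
      have h13 := hκ4 c hc
      simp only [Finset.mem_product, Finset.mem_range]
      refine ⟨by omega, by omega, by omega, by omega⟩
    refine (Finset.card_le_card h1).trans ?_
    rw [Finset.card_product, Finset.card_product, Finset.card_product, Finset.card_range,
      Finset.card_range, Finset.card_range, two_mul, pow_add]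
  refine (Finset.card_le_mul_card_image S M ?_).trans (Nat.mul_le_mul_left _ himg)
  intro k hk
  obtain ⟨c₁, hc₁, rfl⟩ := Finset.mem_image.1 hk
  obtain ⟨x₀, y₀, h1, h2, h3⟩ := hκ5 c₁ hc₁
  obtain ⟨-, h4⟩ := hg _ _ (hκ1 c₁ hc₁) (hκ3 c₁ hc₁)
  apply hM _ _ (hκ1 c₁ hc₁) (hκ3 c₁ hc₁) (hκ4 c₁ hc₁) (hκ2 c₁ hc₁) c₁ x₀ y₀ h1 _
    (Finset.filter_subset _ _)
  intro c hc
  rw [Finset.mem_filter] at hc
  obtain ⟨hcS, hcκ⟩ := hc
  have h8 := hκ5 c hcS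
  rw [hcκ] at h8
  obtain ⟨x, y, h5, h6, h7⟩ := h8
  exact ⟨x, y, h5, h4 _ _ (h6.trans h2.symm), h4 _ _ (h7.trans h3.symm)⟩

set_option maxHeartbeats 1000000 in
theorem curve_count' {d : ℕ} (hd : 2 ≤ d) (A B D d₀ K₂ : ℕ) (hD : 1 ≤ D) (hd₀ : 1 ≤ d₀)
    (hK₂ : (d * d) ^ A + 3 + d₀ ≤ K₂) (hK₂' : A * d₀ < d ^ K₂) :
    ∃ M₃ : ℕ, ∀ (h T : ℕ), 1 ≤ h → d * d₀ + d₀ ≤ T →
      (2 * D * h) ^ 2 ≤ d₀ * d₀ * h → ∀ Y : ℝ, 1 ≤ Y → ∀ Z₀ Z W : ℕ,
      2 * ((d₀ * d₀ : ℕ) : ℝ) * Y ^ T < (Z₀ : ℝ) ^ h →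
      (∀ w : ℤ, w ≠ 0 → |w| ≤ W → ∃ q : ℕ, q.Prime ∧ Z₀ ≤ q ∧ q ≤ Z ∧ ¬ (q : ℤ) ∣ w) →
      ∀ (F : ℤ[X][X]) (C : ℕ), F ≠ 0 → F.natDegree ≤ A → (∀ l, (F.coeff l).natDegree ≤ B) →
      (∀ l k, |(F.derivative.coeff l).coeff k| ≤ C) →
      (Y * Tb D Y * ((A + 1) * (B + 1) * C * Y ^ (d * B + A))) ^ D ≤ W →
      ∀ S : Finset ℂ, (∀ c ∈ S, ∃ z : ℂ, Gl d D Y c z ∧
        E2 c z F = 0 ∧ E2 c z F.derivative ≠ 0 ∧ ¬ Gd d ((d * d) ^ A) c z) →
      S.card ≤ M₃ * ((Z + 1) * ((D + 1) * Z ^ (2 * D))) := by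
  classical
  obtain ⟨A₂, B₂, C₂, hfam⟩ := PP.fam_bd (fun x : Fin d₀ × Fin d₀ =>
    gm d (x.1 : ℕ) (PP.bt K₂ (x.2 : ℕ)) (K₂ + 1))
  refine ⟨(A + B) * ((A + A₂) * (max B B₂) + 1), ?_⟩
  intro h T hh hT hs Y hY Z₀ Z W hsz hpr F C hF0 hFA hFB hFC hW S hS
  have hd1 : 1 ≤ d := by omega
  have hFA' : F.derivative.natDegree ≤ A := (natDegree_derivative_le F).trans (by omega)
  have hFB' : ∀ l, (F.derivative.coeff l).natDegree ≤ B := by
    intro l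
    rw [coeff_derivative]
    have : ((l : ℤ[X]) + 1) = Polynomial.C ((l : ℤ) + 1) := by simp
    rw [this]
    exact (natDegree_mul_C_le _ _).trans (hFB _)
  set m := 2 * D * h with hm'
  have hm1 : 1 ≤ m := by
    rw [hm']
    exact Nat.succ_le_of_lt (by positivity)
  apply classes' (P := fun q f c x y => Z₀ ≤ q ∧ E2 x y F ∈ mm q f ∧ E2 x y F.derivative ∉ mm q f ∧
    ∃ z, Lp d D Y m q f c z x y ∧ E2 c z F = 0 ∧ ¬ Gd d ((d * d) ^ A) c z)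
  · -- the choice of the prime
    intro c hc
    obtain ⟨z, ⟨K, _, _, σ, c₁, z₁, v, a, u, hK, hc₁, hz₁, hp, hgen⟩, hE, hE', hG⟩ := hS c hc
    set w : 𝓞 K := hm d a ((v : ℕ) : 𝓞 K) (u 0) F.derivative A B with hw
    have hE₁ : E2 c₁ z₁ F.derivative ≠ 0 := by
      intro h0
      apply hE'
      rw [← hc₁, ← hz₁, ← PP.E2_map, h0, map_zero]
    have hw0 : w ≠ 0 := by
      intro h0
      have h1 : ((w : 𝓞 K) : K) = 0 := by rw [h0]; rfl
      have h2 : ((w : 𝓞 K) : K) = (v : K) ^ (d * B + A) * E2 c₁ z₁ F.derivative := by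
        show algebraMap (𝓞 K) K w = _
        rw [hw, PP.hm_map, map_natCast]
        apply PP.hm_eq _ _ hFA' hFB'
        · exact hp.ha
        · have := hp.hu 0
          rwa [PP.orb_zero] at this
      rw [h1] at h2
      have hv0 : (v : K) ≠ 0 := Nat.cast_ne_zero.2 hp.v0
      exact (mul_ne_zero (pow_ne_zero _ hv0) hE₁) h2.symm
    obtain ⟨q, f, hq, hZ₀, hZ, hf1, hfD, 𝔮, ψ, c', z', x, y, hmax, hN, hv𝔮, hw𝔮, hψ, hx, hy, hc', hz'⟩ :=
      localize hd1 hD hY hK hp hgen hw0 (B := (A + 1) * (B + 1) * C * Y ^ (d * B + A)) (by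
        intro τ
        set φ : 𝓞 K →+* ℂ := τ.comp (algebraMap (𝓞 K) K) with hφ
        show ‖φ w‖ ≤ _
        rw [hw, PP.hm_map, map_natCast]
        exact PP.hm_norm hY hd1 (hp.aY τ) (by rw [Complex.norm_natCast]; exact hp.vY)
          (hp.uY 0 τ) hFC) hW hpr m
    have hL : Lp d D Y m q f c z x y := Lp.mk' hK hc₁ hz₁ hp hmax hN hv𝔮 hψ hx hy hc' hz'
    refine ⟨q, f, hq, hZ, hf1, hfD, x, y, hZ₀, ?_, ?_, z, hL, hE, hG⟩
    · exact Ideal.pow_le_self (by omega) (hL.zero hd1 hE)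
    · intro h2
      have hz0 : u 0 - (v : 𝓞 K) * z' ∈ 𝔮 ^ m := by
        have := hz' 0
        rwa [PP.orb_zero] at this
      obtain ⟨k1, -⟩ := PP.curve_mem hd1 hmax hp hv𝔮 hc' hz0 hFA' hFB'
      apply hw𝔮
      have k2 := Ideal.pow_le_self (by omega : m ≠ 0) k1
      have h3 : (E2 x y F.derivative) ^ m ∈ mm q f ^ m := Ideal.pow_mem_pow h2 m
      have h4 : E2 c' z' F.derivative ∈ 𝔮 := by
        rw [← hψ, map_pow, PP.E2_map, hx, hy, ← PP.E2_map, ← map_pow,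
          Ideal.Quotient.eq_zero_iff_mem] at h3
        exact hmax.isPrime.mem_of_pow_mem m (Ideal.pow_le_self (by omega) h3)
      have k3 := 𝔮.add_mem k2 (𝔮.mul_mem_left ((v : 𝓞 K) ^ (d * B + A)) h4)
      rwa [sub_add_cancel] at k3
  · -- the count in a class
    intro q f hq hf1 hfD hqZ c₂ x₀ y₀ hP T' hT' hcl
    obtain ⟨hZ₀, h0, h1, -⟩ := hP
    have hcardι : Fintype.card (Fin d₀ × Fin d₀) = d₀ * d₀ := by
      rw [Fintype.card_prod, Fintype.card_fin]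
    obtain ⟨e, he0, he⟩ := aux_curve' (D := D) hd1 (ι := Fin d₀ × Fin d₀) (by
        rw [hcardι]; exact Nat.succ_le_of_lt (by positivity)) (fun x => (x.1 : ℕ))
      (fun x => PP.bt K₂ (x.2 : ℕ)) (L := K₂ + 1) (T := T) (by
        intro x
        rw [PP.sum_bt]
        have h2 := x.1.2
        have h3 := x.2.2
        have h4 : d * (x.1 : ℕ) ≤ d * d₀ := Nat.mul_le_mul_left _ (by omega)
        omega) (h := h) hD (by rw [hcardι]; exact hs) hq hf1 hY (by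
        rw [hcardι]
        refine lt_of_lt_of_le hsz ?_
        apply pow_le_pow_left₀ (Nat.cast_nonneg _)
        exact_mod_cast hZ₀) (F := F) x₀ y₀ h0 h1
    set Q₂ : ℤ[X][X] := ∑ x, (e x : ℤ[X][X]) * gm d (x.1 : ℕ) (PP.bt K₂ (x.2 : ℕ)) (K₂ + 1) with hQ₂
    obtain ⟨H, hH⟩ : ∃ H : ℕ, ∀ x, |e x| ≤ H := by
      refine ⟨∑ x, (e x).natAbs, fun x => ?_⟩
      rw [← Int.natCast_natAbs]
      exact_mod_cast Finset.single_le_sum (f := fun x => (e x).natAbs) (fun _ _ => Nat.zero_le _)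
        (Finset.mem_univ x)
    obtain ⟨g1, g2, -⟩ := hfam e H hH
    have hzc := PP.zc (K := ℂ) (Q := Q₂) (A := A) (A₂ := A₂) (B := max B B₂) g1
      (fun l => (g2 l).trans (le_max_right _ _)) (Gd d ((d * d) ^ A)) (by
        intro G hG hG1 hGA hGQ c z hz
        rw [hQ₂, PP.rr_sum hd₀] at hGQ
        obtain ⟨i, j, hij, hj, hdvd⟩ := PP.FF' hd hK₂ hK₂' hG hG1 hGA (PP.rr e)
          (PP.rr_natDegree hd₀ e) (PP.rr_ne he0) hGQ
        refine ⟨i, j, hij, hj, ?_⟩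
        obtain ⟨H', hH'⟩ := hdvd
        have h2 := congrArg (E2 c z) hH'
        rw [map_mul, hz, zero_mul, map_sub, PP.E2_it, PP.E2_it] at h2
        exact sub_eq_zero.1 h2) F hF0 hFA
      ((PP.swap_natDegree_le hFB).trans (le_max_left _ _))
    have hsub : (T' : Set ℂ) ⊆
        {c : ℂ | ∃ z, E2 c z F = 0 ∧ E2 c z Q₂ = 0 ∧ ¬ Gd d ((d * d) ^ A) c z} := by
      intro c hc
      obtain ⟨x, y, ⟨-, -, -, z, hL, hE, hG⟩, hxx, hyy⟩ := hcl c hc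
      refine ⟨z, hE, ?_, hG⟩
      rw [hQ₂, sum_E2]
      exact he c z x y hL hE hxx hyy
    have h2 := Set.ncard_le_ncard hsub hzc.1
    rw [Set.ncard_coe_finset] at h2
    refine h2.trans (hzc.2.trans (Nat.mul_le_mul_right _ ?_))
    exact Nat.add_le_add hFA (PP.swap_natDegree_le hFB)

set_option maxHeartbeats 1000000 in
theorem plane_count' {d : ℕ} (hd : 2 ≤ d) (D t : ℕ) (hD : 1 ≤ D) :
    ∃ A B C M₃ s₁ s₂ T₁ T₂ : ℕ, ∀ Y : ℝ, 1 ≤ Y → ∀ Z₀ Z₁ W₁ Z₂ W₂ : ℕ,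
      2 * (s₁ : ℝ) * Y ^ T₁ < (Z₀ : ℝ) ^ (t * T₁ + 1) →
      2 * (s₂ : ℝ) * Y ^ T₂ < (Z₀ : ℝ) ^ (t * T₂ + 1) →
      (∀ w : ℤ, w ≠ 0 → |w| ≤ W₁ → ∃ q : ℕ, q.Prime ∧ Z₀ ≤ q ∧ q ≤ Z₁ ∧ ¬ (q : ℤ) ∣ w) →
      (∀ w : ℤ, w ≠ 0 → |w| ≤ W₂ → ∃ q : ℕ, q.Prime ∧ Z₀ ≤ q ∧ q ≤ Z₂ ∧ ¬ (q : ℤ) ∣ w) →
      (Y * Tb D Y * 1) ^ D ≤ W₁ →
      (Y * Tb D Y * ((A + 1) * (B + 1) *
        (((A + 1) ^ (A + 1) * (C * ((Z₁ ^ D) ^ (t * T₁ + 1) + 1)) : ℕ) : ℝ) *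
        Y ^ (d * B + A))) ^ D ≤ W₂ →
      ∀ S : Finset ℂ, (∀ c ∈ S, ∃ z : ℂ, Gl d D Y c z ∧ ¬ Gd d ((d * d) ^ A) c z) →
      S.card ≤ (B + (A + 1) * (M₃ * ((Z₂ + 1) * ((D + 1) * Z₂ ^ (2 * D))))) *
        ((Z₁ + 1) * ((D + 1) * Z₁ ^ (2 * D))) := by
  classical
  have hd1 : 1 ≤ d := by omega
  -- parameters
  set Kp : ℕ := 8 * D ^ 3 * (2 * d * t + 1) ^ 2 with hKp
  have hKp1 : 1 ≤ Kp := Nat.succ_le_of_lt (by positivity)
  obtain ⟨A, B, C, hfam⟩ := PP.fam_bd (fun x : Fin Kp × Fin (d ^ Kp * Kp) =>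
    gm d (x.1 : ℕ) (PP.bp d Kp (x.2 : ℕ)) (Kp + 1))
  set d₀ : ℕ := 4 * D ^ 2 * (t * (d + 1) + 1) with hd₀
  have hd₀1 : 1 ≤ d₀ := Nat.succ_le_of_lt (by positivity)
  set K₂ : ℕ := (d * d) ^ A + 3 + d₀ + A * d₀ with hK₂
  have hK₂' : A * d₀ < d ^ K₂ := by
    calc A * d₀ ≤ K₂ := by omega
      _ < 2 ^ K₂ := Nat.lt_two_pow_self
      _ ≤ d ^ K₂ := Nat.pow_le_pow_left hd _
  obtain ⟨M₃, hM₃⟩ := curve_count' hd A B D d₀ K₂ hD hd₀1 (by omega) hK₂'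
  set T₁ : ℕ := 2 * d * Kp with hT₁
  set T₂ : ℕ := d * d₀ + d₀ with hT₂
  refine ⟨A, B, C, M₃, Kp * (d ^ Kp * Kp), d₀ * d₀, T₁, T₂, ?_⟩
  intro Y hY Z₀ Z₁ W₁ Z₂ W₂ hsz₁ hsz₂ hpr₁ hpr₂ hW₁ hW₂ S hS
  set h₁ : ℕ := t * T₁ + 1 with hh₁
  set h₂ : ℕ := t * T₂ + 1 with hh₂
  apply classes' (P := fun q f c x y => Z₀ ≤ q ∧
    ∃ z, Lp d D Y (2 * D * h₁) q f c z x y ∧ Gl d D Y c z ∧ ¬ Gd d ((d * d) ^ A) c z)
  · intro c hc
    obtain ⟨z, ⟨K, _, _, σ, c₁, z₁, v, a, u, hK, hc₁, hz₁, hp, hgen⟩, hG⟩ := hS c hc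
    obtain ⟨q, f, hq, hZ₀, hZ, hf1, hfD, 𝔮, ψ, c', z', x, y, hmax, hN, hv𝔮, hw𝔮, hψ, hx, hy, hc', hz'⟩ :=
      localize hd1 hD hY hK hp hgen (w := 1) one_ne_zero (B := 1) (by
        intro τ
        have : ((1 : 𝓞 K) : K) = 1 := rfl
        rw [this, map_one, norm_one]) hW₁ hpr₁ (2 * D * h₁)
    exact ⟨q, f, hq, hZ, hf1, hfD, x, y, hZ₀, z, Lp.mk' hK hc₁ hz₁ hp hmax hN hv𝔮 hψ hx hy hc' hz',
      Gl.mk' hK hc₁ hz₁ hp hgen, hG⟩
  · intro q f hq hf1 hfD hqZ c₃ x₀ y₀ hP T' hT' hcl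
    obtain ⟨hZ₀, -⟩ := hP
    have hcardι : Fintype.card (Fin Kp × Fin (d ^ Kp * Kp)) = Kp * (d ^ Kp * Kp) := by
      rw [Fintype.card_prod, Fintype.card_fin, Fintype.card_fin]
    have hs₁ : (2 * D * h₁) ^ 3 ≤ Kp * (d ^ Kp * Kp) * h₁ := by
      have e1 : h₁ ≤ (2 * d * t + 1) * Kp := by
        rw [hh₁, hT₁]
        have : (2 * d * t + 1) * Kp = t * (2 * d * Kp) + Kp := by ring
        omega
      have e2 : Kp ≤ d ^ Kp := by
        calc Kp ≤ 2 ^ Kp := Nat.lt_two_pow_self.le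
          _ ≤ d ^ Kp := Nat.pow_le_pow_left hd _
      calc (2 * D * h₁) ^ 3 = 8 * D ^ 3 * h₁ ^ 2 * h₁ := by ring
        _ ≤ 8 * D ^ 3 * ((2 * d * t + 1) * Kp) ^ 2 * h₁ :=
            Nat.mul_le_mul_right _ (Nat.mul_le_mul_left _ (Nat.pow_le_pow_left e1 2))
        _ = Kp * Kp * Kp * h₁ := by
            have : 8 * D ^ 3 * ((2 * d * t + 1) * Kp) ^ 2 =
              (8 * D ^ 3 * (2 * d * t + 1) ^ 2) * Kp * Kp := by ring
            rw [this, ← hKp]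
        _ ≤ Kp * (d ^ Kp * Kp) * h₁ := by
            apply Nat.mul_le_mul_right
            rw [mul_assoc]
            exact Nat.mul_le_mul_left _ (Nat.mul_le_mul_right _ e2)
    obtain ⟨e, he0, heH, he⟩ := aux_plane' (D := D) hd1 (ι := Fin Kp × Fin (d ^ Kp * Kp)) (by
        rw [hcardι]; exact Nat.succ_le_of_lt (by positivity)) (fun x => (x.1 : ℕ))
      (fun x => PP.bp d Kp (x.2 : ℕ)) (L := Kp + 1) (T := T₁) (by
        intro x
        have h2 := x.1.2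
        have h3 := PP.sum_bp (b := Kp) hd1 x.2.2
        have h4 : d * (x.1 : ℕ) ≤ d * Kp := Nat.mul_le_mul_left _ (by omega)
        have h5 : T₁ = d * Kp + ((d - 1) * Kp + Kp) := by
          have : (d - 1) * Kp + Kp = d * Kp := by
            have : d - 1 + 1 = d := by omega
            calc (d - 1) * Kp + Kp = (d - 1 + 1) * Kp := by ring
              _ = d * Kp := by rw [this]
          rw [this, hT₁]; ring
        rw [h5]
        exact Nat.add_le_add h4 h3) (h := h₁) hD (by rw [hcardι]; exact hs₁) hq hf1 hY (by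
        rw [hcardι]
        refine lt_of_lt_of_le hsz₁ ?_
        apply pow_le_pow_left₀ (Nat.cast_nonneg _)
        exact_mod_cast hZ₀) x₀ y₀
    set Q : ℤ[X][X] := ∑ x, (e x : ℤ[X][X]) * gm d (x.1 : ℕ) (PP.bp d Kp (x.2 : ℕ)) (Kp + 1) with hQ
    have hQ0 : Q ≠ 0 := by
      have h1 := PP.mon_ne hd1 (K := Kp) he0
      have h2 : Q = ∑ x, (e x : ℤ[X][X]) * PP.mon d Kp x := by
        rw [hQ]
        apply Finset.sum_congr rfl
        intro x _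
        rw [PP.gm_bp]
        rfl
      rw [h2]; exact h1
    set H : ℕ := (Z₁ ^ D) ^ h₁ + 1 with hH
    have heH' : ∀ x, |e x| ≤ (H : ℤ) := by
      intro x
      refine (heH x).trans ?_
      have h1 : q ^ f ≤ Z₁ ^ D := (Nat.pow_le_pow_left hqZ _).trans
        (Nat.pow_le_pow_right (hq.pos.trans_le hqZ) hfD)
      have h2 : (q ^ f) ^ h₁ + 1 ≤ H := Nat.add_le_add_right (Nat.pow_le_pow_left h1 _) 1
      exact_mod_cast h2
    obtain ⟨g1, g2, g3⟩ := hfam e H heH'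
    have hcT : ∀ c ∈ T', ∃ z, E2 c z Q = 0 ∧ Gl d D Y c z ∧ ¬ Gd d ((d * d) ^ A) c z := by
      intro c hc
      obtain ⟨x, y, ⟨-, z, hL, hgl, hG⟩, hxx, hyy⟩ := hcl c hc
      refine ⟨z, ?_, hgl, hG⟩
      rw [hQ, sum_E2]
      exact he c z x y hL hxx hyy
    choose! z hz1 hz2 hz3 using hcT
    -- the decomposition
    set U₀ : Finset ℂ := T'.filter fun c => Q.map (eval₂RingHom (Int.castRingHom ℂ) c) = 0 with hU₀
    set U : ℕ → Finset ℂ := fun μ => T'.filter fun c => E2 c (z c) (derivative^[μ] Q) = 0 ∧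
      E2 c (z c) (derivative^[μ] Q).derivative ≠ 0 with hU
    have hcov : T' ⊆ U₀ ∪ (Finset.range (A + 1)).biUnion U := by
      intro c hc
      rw [Finset.mem_union]
      by_cases h0 : Q.map (eval₂RingHom (Int.castRingHom ℂ) c) = 0
      · left
        rw [hU₀, Finset.mem_filter]
        exact ⟨hc, h0⟩
      · right
        obtain ⟨μ, hμ, h1, h2⟩ := PP.exists_mult g1 c (z c) h0 (hz1 c hc)
        rw [Finset.mem_biUnion]
        refine ⟨μ, Finset.mem_range.2 (by omega), ?_⟩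
        rw [hU]
        simp only
        rw [Finset.mem_filter]
        exact ⟨hc, h1, h2⟩
    have hU₀c : U₀.card ≤ B := by
      obtain ⟨l, hl⟩ : ∃ l, Q.coeff l ≠ 0 := by
        by_contra hall
        push Not at hall
        exact hQ0 (Polynomial.ext fun l => by rw [hall l, coeff_zero])
      obtain ⟨h1, h2⟩ := PP.roots_fin (K := ℂ) hl
      have hsub : (U₀ : Set ℂ) ⊆ {c : ℂ | (Q.coeff l).eval₂ (Int.castRingHom ℂ) c = 0} := by
        intro c hc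
        rw [hU₀, Finset.mem_coe, Finset.mem_filter] at hc
        have := congrArg (fun p => p.coeff l) hc.2
        simp only [coeff_map, coeff_zero] at this
        exact this
      have h3 := Set.ncard_le_ncard hsub h1
      rw [Set.ncard_coe_finset] at h3
      exact h3.trans (h2.trans (g2 l))
    have hs₂ : (2 * D * h₂) ^ 2 ≤ d₀ * d₀ * h₂ := by
      have e1 : h₂ ≤ (t * (d + 1) + 1) * d₀ := by
        rw [hh₂, hT₂]
        have : (t * (d + 1) + 1) * d₀ = t * (d * d₀ + d₀) + d₀ := by ring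
        omega
      calc (2 * D * h₂) ^ 2 = 4 * D ^ 2 * h₂ * h₂ := by ring
        _ ≤ 4 * D ^ 2 * ((t * (d + 1) + 1) * d₀) * h₂ :=
            Nat.mul_le_mul_right _ (Nat.mul_le_mul_left _ e1)
        _ = d₀ * d₀ * h₂ := by
            have : 4 * D ^ 2 * ((t * (d + 1) + 1) * d₀) = (4 * D ^ 2 * (t * (d + 1) + 1)) * d₀ := by
              ring
            rw [this, ← hd₀]
    have hUc : ∀ μ ∈ Finset.range (A + 1), (U μ).card ≤
        M₃ * ((Z₂ + 1) * ((D + 1) * Z₂ ^ (2 * D))) := by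
      intro μ hμ
      have hμA : μ ≤ A := by have := Finset.mem_range.1 hμ; omega
      rcases (U μ).eq_empty_or_nonempty with h0 | ⟨c₂, hc₂⟩
      · rw [h0, Finset.card_empty]; exact Nat.zero_le _
      obtain ⟨i1, i2, -⟩ := PP.iter_deriv_bd g1 g2 (C := C * H) (by
        intro l k
        exact_mod_cast g3 l k) μ
      obtain ⟨-, -, i3⟩ := PP.iter_deriv_bd g1 g2 (C := C * H) (by
        intro l k
        exact_mod_cast g3 l k) (μ + 1)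
      have hF0 : derivative^[μ] Q ≠ 0 := by
        intro h0
        rw [hU] at hc₂
        simp only at hc₂
        rw [Finset.mem_filter, h0, derivative_zero, map_zero] at hc₂
        exact hc₂.2.2 rfl
      exact hM₃ h₂ T₂ (by omega) (le_refl _) hs₂ Y hY Z₀ Z₂ W₂ (by
          push_cast at hsz₂ ⊢
          exact hsz₂) hpr₂ (derivative^[μ] Q) ((A + 1) ^ (A + 1) * (C * H)) hF0 i1 i2 (by
          intro l k
          rw [Function.iterate_succ_apply'] at i3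
          refine (i3 l k).trans ?_
          have h1 : A ^ (μ + 1) ≤ (A + 1) ^ (A + 1) :=
            (Nat.pow_le_pow_left (Nat.le_succ A) _).trans
              (Nat.pow_le_pow_right (by omega) (by omega))
          have h2 : A ^ (μ + 1) * (C * H) ≤ (A + 1) ^ (A + 1) * (C * H) :=
            Nat.mul_le_mul_right _ h1
          exact_mod_cast h2) hW₂ (U μ) (by
          intro c hc
          rw [hU] at hc
          simp only at hc
          rw [Finset.mem_filter] at hc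
          exact ⟨z c, hz2 c hc.1, hc.2.1, hc.2.2, hz3 c hc.1⟩)
    calc T'.card ≤ (U₀ ∪ (Finset.range (A + 1)).biUnion U).card := Finset.card_le_card hcov
      _ ≤ U₀.card + ((Finset.range (A + 1)).biUnion U).card := Finset.card_union_le _ _
      _ ≤ B + (A + 1) * (M₃ * ((Z₂ + 1) * ((D + 1) * Z₂ ^ (2 * D)))) := by
          apply Nat.add_le_add hU₀c
          refine (Finset.card_biUnion_le_card_mul _ _ _ hUc).trans ?_
          rw [Finset.card_range]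

end Pool.Agent.Y673.PQ
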