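import Pool.Agent.Y673.PQ.Prim
import Pool.Agent.Y673.PP.Cv

/-!
Points over varying number fields and their reductions to the model rings (helper673).
-/

set_option autoImplicit false

namespace Pool.Agent.Y673.PQ

open Polynomial NumberField Module
open Pool.Agent.Y673.PP (orb E2 Pt gm gt hm)

/-- a point with an integral orbit of bounded size over a number field of degree `D` -/
def Gl (d D : ℕ) (Y : ℝ) (c z : ℂ) : Prop :=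
  ∃ (K : Type) (_ : Field K) (_ : NumberField K) (σ : K →+* ℂ) (c₁ z₁ : K) (v : ℕ) (a : 𝓞 K)
    (u : ℕ → 𝓞 K), finrank ℚ K = D ∧ σ c₁ = c ∧ σ z₁ = z ∧ Pt d Y c₁ z₁ v a u ∧
      IntermediateField.adjoin ℚ {c₁, z₁} = ⊤

/-- such a point with its residue class in the model ring -/
def Lp (d D : ℕ) (Y : ℝ) (m q f : ℕ) (c z : ℂ) (x y : MA q f) : Prop :=
  ∃ (K : Type) (_ : Field K) (_ : NumberField K) (σ : K →+* ℂ) (c₁ z₁ : K) (v : ℕ) (a : 𝓞 K)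
    (u : ℕ → 𝓞 K) (𝔮 : Ideal (𝓞 K)) (ψ : MA q f →+* 𝓞 K ⧸ 𝔮 ^ m) (c' z' : 𝓞 K),
      finrank ℚ K = D ∧ σ c₁ = c ∧ σ z₁ = z ∧ Pt d Y c₁ z₁ v a u ∧ 𝔮.IsMaximal ∧
      Ideal.absNorm 𝔮 = q ^ f ∧ (v : 𝓞 K) ∉ 𝔮 ∧ (∀ w, ψ w = 0 ↔ w ∈ mm q f ^ m) ∧
      ψ x = Ideal.Quotient.mk (𝔮 ^ m) c' ∧ ψ y = Ideal.Quotient.mk (𝔮 ^ m) z' ∧
      a - (v : 𝓞 K) ^ d * c' ∈ 𝔮 ^ m ∧ ∀ i, u i - (v : 𝓞 K) * orb d c' z' i ∈ 𝔮 ^ m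

theorem Lp.mk' {d D : ℕ} {Y : ℝ} {m q f : ℕ} {c z : ℂ} {x y : MA q f} {K : Type} [iF : Field K]
    [iN : NumberField K] {σ : K →+* ℂ} {c₁ z₁ : K} {v : ℕ} {a : 𝓞 K} {u : ℕ → 𝓞 K}
    {𝔮 : Ideal (𝓞 K)} {ψ : MA q f →+* 𝓞 K ⧸ 𝔮 ^ m} {c' z' : 𝓞 K}
    (h1 : finrank ℚ K = D) (h2 : σ c₁ = c) (h3 : σ z₁ = z) (h4 : Pt d Y c₁ z₁ v a u)
    (h5 : 𝔮.IsMaximal) (h6 : Ideal.absNorm 𝔮 = q ^ f) (h7 : (v : 𝓞 K) ∉ 𝔮)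
    (h8 : ∀ w, ψ w = 0 ↔ w ∈ mm q f ^ m) (h9 : ψ x = Ideal.Quotient.mk (𝔮 ^ m) c')
    (h10 : ψ y = Ideal.Quotient.mk (𝔮 ^ m) z') (h11 : a - (v : 𝓞 K) ^ d * c' ∈ 𝔮 ^ m)
    (h12 : ∀ i, u i - (v : 𝓞 K) * orb d c' z' i ∈ 𝔮 ^ m) : Lp d D Y m q f c z x y :=
  ⟨K, iF, iN, σ, c₁, z₁, v, a, u, 𝔮, ψ, c', z', h1, h2, h3, h4, h5, h6, h7, h8, h9, h10, h11, h12⟩

theorem Gl.mk' {d D : ℕ} {Y : ℝ} {c z : ℂ} {K : Type} [iF : Field K]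
    [iN : NumberField K] {σ : K →+* ℂ} {c₁ z₁ : K} {v : ℕ} {a : 𝓞 K} {u : ℕ → 𝓞 K}
    (h1 : finrank ℚ K = D) (h2 : σ c₁ = c) (h3 : σ z₁ = z) (h4 : Pt d Y c₁ z₁ v a u)
    (h5 : IntermediateField.adjoin ℚ {c₁, z₁} = ⊤) : Gl d D Y c z :=
  ⟨K, iF, iN, σ, c₁, z₁, v, a, u, h1, h2, h3, h4, h5⟩

theorem psi_E2 {K : Type} [Field K] [NumberField K] {𝔮 : Ideal (𝓞 K)} {m q f : ℕ}
    {ψ : MA q f →+* 𝓞 K ⧸ 𝔮 ^ m} (hψ : ∀ w, ψ w = 0 ↔ w ∈ mm q f ^ m) {x y : MA q f} {c' z' : 𝓞 K}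
    (hx : ψ x = Ideal.Quotient.mk (𝔮 ^ m) c') (hy : ψ y = Ideal.Quotient.mk (𝔮 ^ m) z')
    (F : ℤ[X][X]) : E2 x y F ∈ mm q f ^ m ↔ E2 c' z' F ∈ 𝔮 ^ m := by
  rw [← hψ, PP.E2_map, hx, hy, ← PP.E2_map, Ideal.Quotient.eq_zero_iff_mem]

theorem sum_E2 {S : Type} [CommRing S] {ι : Type} [Fintype ι] (e : ι → ℤ) (P : ι → ℤ[X][X])
    (c z : S) : E2 c z (∑ x, (e x : ℤ[X][X]) * P x) = ∑ x, (e x : S) * E2 c z (P x) := by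
  rw [map_sum]
  apply Finset.sum_congr rfl
  intro x _
  rw [map_mul, map_intCast]

theorem q_le_pow {q f : ℕ} (hq : q.Prime) (hf : 1 ≤ f) : q ≤ q ^ f := Nat.le_self_pow (by omega) q

theorem aux_plane' {d : ℕ} (hd : 1 ≤ d) {ι : Type} [Fintype ι] (hι : 1 ≤ Fintype.card ι)
    (α : ι → ℕ) (β : ι → ℕ → ℕ) {L T : ℕ} (hT : ∀ x, d * α x + ∑ i ∈ Finset.range L, β x i ≤ T)
    {D h : ℕ} (hD : 1 ≤ D) (hs : (2 * D * h) ^ 3 ≤ Fintype.card ι * h) {q f : ℕ} (hq : q.Prime)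
    (hf : 1 ≤ f) {Y : ℝ} (hY : 1 ≤ Y) (hsz : 2 * (Fintype.card ι : ℝ) * Y ^ T < (q : ℝ) ^ h)
    (x₀ y₀ : MA q f) : ∃ e : ι → ℤ, e ≠ 0 ∧ (∀ x, |e x| ≤ (((q ^ f) ^ h + 1 : ℕ) : ℤ)) ∧
      ∀ (c z : ℂ) (x y : MA q f), Lp d D Y (2 * D * h) q f c z x y → x - x₀ ∈ mm q f →
        y - y₀ ∈ mm q f → ∑ i, (e i : ℂ) * E2 c z (gm d (α i) (β i) L) = 0 := by
  have hQ1 : 1 ≤ q ^ f := Nat.one_le_pow _ _ hq.pos
  have hqQ : (q : ℝ) ≤ ((q ^ f : ℕ) : ℝ) := by exact_mod_cast q_le_pow hq hf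
  have hsz' : 2 * (Fintype.card ι : ℝ) * Y ^ T < ((q ^ f : ℕ) : ℝ) ^ h :=
    lt_of_lt_of_le hsz (pow_le_pow_left₀ (Nat.cast_nonneg _) hqQ h)
  obtain ⟨e, he0, heH, he⟩ := PP.two_var hQ1 (finite_mm hq hf) (card_mm hq hf)
    (fun x => (gm d (α x) (β x) L).map (mapRingHom (Int.castRingHom (MA q f)))) x₀ y₀
    (PP.pig_lt (n := 3) hι hQ1 hs)
  refine ⟨e, he0, heH, fun c z x y hL hx hy => ?_⟩
  obtain ⟨K, _, _, σ, c₁, z₁, v, a, u, 𝔮, ψ, c', z', hK, hc₁, hz₁, hp, hmax, hN, hv, hψ, hψx, hψy,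
    hc', hz'⟩ := hL
  have h1 := he x y hx hy
  simp only [PP.ev_map_int] at h1
  rw [← sum_E2, psi_E2 hψ hψx hψy, sum_E2] at h1
  have h2 := PP.aux_zero hd α β hT e heH hmax hY hp hc' hz' h1 (by
    rw [hK, hN]
    exact PP.size_lt hD hι hY hQ1 hsz')
  have h3 := congrArg σ h2
  rw [map_sum, map_zero] at h3
  rw [← h3, ← hc₁, ← hz₁]
  apply Finset.sum_congr rfl
  intro i _
  rw [map_mul, map_intCast, PP.E2_map]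

theorem Lp.zero {d D : ℕ} (hd : 1 ≤ d) {Y : ℝ} {m q f : ℕ} {c z : ℂ} {x y : MA q f}
    (hL : Lp d D Y m q f c z x y) {F : ℤ[X][X]} (hF : E2 c z F = 0) : E2 x y F ∈ mm q f ^ m := by
  obtain ⟨K, _, _, σ, c₁, z₁, v, a, u, 𝔮, ψ, c', z', hK, hc₁, hz₁, hp, hmax, hN, hv, hψ, hψx, hψy,
    hc', hz'⟩ := hL
  rw [psi_E2 hψ hψx hψy]
  apply PP.curve_zero hd hmax hp hv hc' hz' (A := F.natDegree)
    (B := (Finset.range (F.natDegree + 1)).sup fun l => (F.coeff l).natDegree) (le_refl _)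
  · intro l
    by_cases hl : l ≤ F.natDegree
    · exact Finset.le_sup (f := fun l => (F.coeff l).natDegree) (Finset.mem_range.2 (by omega))
    · rw [coeff_eq_zero_of_natDegree_lt (not_le.1 hl), natDegree_zero]
      exact Nat.zero_le _
  · apply σ.injective
    rw [PP.E2_map, hc₁, hz₁, hF, map_zero]

theorem aux_curve' {d : ℕ} (hd : 1 ≤ d) {ι : Type} [Fintype ι] (hι : 1 ≤ Fintype.card ι)
    (α : ι → ℕ) (β : ι → ℕ → ℕ) {L T : ℕ} (hT : ∀ x, d * α x + ∑ i ∈ Finset.range L, β x i ≤ T)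
    {D h : ℕ} (hD : 1 ≤ D) (hs : (2 * D * h) ^ 2 ≤ Fintype.card ι * h) {q f : ℕ} (hq : q.Prime)
    (hf : 1 ≤ f) {Y : ℝ} (hY : 1 ≤ Y) (hsz : 2 * (Fintype.card ι : ℝ) * Y ^ T < (q : ℝ) ^ h)
    {F : ℤ[X][X]} (x₀ y₀ : MA q f) (h0 : E2 x₀ y₀ F ∈ mm q f) (h1 : E2 x₀ y₀ F.derivative ∉ mm q f) :
    ∃ e : ι → ℤ, e ≠ 0 ∧
      ∀ (c z : ℂ) (x y : MA q f), Lp d D Y (2 * D * h) q f c z x y → E2 c z F = 0 →
        x - x₀ ∈ mm q f → y - y₀ ∈ mm q f → ∑ i, (e i : ℂ) * E2 c z (gm d (α i) (β i) L) = 0 := by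
  have hQ1 : 1 ≤ q ^ f := Nat.one_le_pow _ _ hq.pos
  have hqQ : (q : ℝ) ≤ ((q ^ f : ℕ) : ℝ) := by exact_mod_cast q_le_pow hq hf
  have hsz' : 2 * (Fintype.card ι : ℝ) * Y ^ T < ((q ^ f : ℕ) : ℝ) ^ h :=
    lt_of_lt_of_le hsz (pow_le_pow_left₀ (Nat.cast_nonneg _) hqQ h)
  have h0' : PP.ev (F.map (mapRingHom (Int.castRingHom (MA q f)))) x₀ y₀ ∈ mm q f := by
    rw [PP.ev_map_int]; exact h0
  have h1' : PP.ev (F.map (mapRingHom (Int.castRingHom (MA q f)))).derivative x₀ y₀ ∉ mm q f := by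
    rw [derivative_map, PP.ev_map_int]; exact h1
  obtain ⟨e, he0, heH, he⟩ := PP.one_var (mm_max hq hf) hQ1 (finite_mm hq hf) (card_mm hq hf)
    (fun x => (gm d (α x) (β x) L).map (mapRingHom (Int.castRingHom (MA q f))))
    (F.map (mapRingHom (Int.castRingHom (MA q f)))) x₀ y₀ h0' h1'
    (PP.pig_lt (n := 2) hι hQ1 hs)
  refine ⟨e, he0, fun c z x y hL hF hx hy => ?_⟩
  have hFm := hL.zero hd hF
  obtain ⟨K, _, _, σ, c₁, z₁, v, a, u, 𝔮, ψ, c', z', hK, hc₁, hz₁, hp, hmax, hN, hv, hψ, hψx, hψy,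
    hc', hz'⟩ := hL
  have h2 := he x y hx hy (by rw [PP.ev_map_int]; exact hFm)
  simp only [PP.ev_map_int] at h2
  rw [← sum_E2, psi_E2 hψ hψx hψy, sum_E2] at h2
  have h3 := PP.aux_zero hd α β hT e heH hmax hY hp hc' hz' h2 (by
    rw [hK, hN]
    exact PP.size_lt hD hι hY hQ1 hsz')
  have h4 := congrArg σ h3
  rw [map_sum, map_zero] at h4
  rw [← h4, ← hc₁, ← hz₁]
  apply Finset.sum_congr rfl
  intro i _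
  rw [map_mul, map_intCast, PP.E2_map]

theorem exists_qi' (K : Type) [Field K] [NumberField K] {q : ℕ} (hq : q.Prime) :
    ∃ I : Ideal (𝓞 K), I.IsMaximal ∧ (q : 𝓞 K) ∈ I ∧
      (∃ f, 1 ≤ f ∧ f ≤ finrank ℚ K ∧ Ideal.absNorm I = q ^ f) ∧
      ∀ x ∈ I, (q : ℤ) ∣ Algebra.norm ℤ x := by
  have habs : Ideal.absNorm (Ideal.span {(q : 𝓞 K)}) = q ^ (finrank ℚ K) := by
    rw [Ideal.absNorm_span_singleton]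
    have h1 : Algebra.norm ℤ ((q : ℕ) : 𝓞 K) = (q : ℤ) ^ (finrank ℚ K) := by
      have h2 : ((q : ℕ) : 𝓞 K) = algebraMap ℤ (𝓞 K) (q : ℤ) := by simp
      rw [h2, Algebra.norm_algebraMap, RingOfIntegers.rank]
    rw [h1, Int.natAbs_pow, Int.natAbs_natCast]
  have hne : Ideal.span {(q : 𝓞 K)} ≠ ⊤ := by
    intro h0
    rw [h0, Ideal.absNorm_top] at habs
    have : 1 < q ^ (finrank ℚ K) := Nat.one_lt_pow finrank_pos.ne' hq.one_lt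
    omega
  obtain ⟨I, hI, hle⟩ := Ideal.exists_le_maximal _ hne
  have hqI : (q : 𝓞 K) ∈ I := hle (Ideal.mem_span_singleton_self _)
  have hdvd : Ideal.absNorm I ∣ q ^ (finrank ℚ K) := by
    rw [← habs]
    exact Ideal.absNorm_dvd_absNorm_of_le hle
  obtain ⟨k, hk, hk'⟩ := (Nat.dvd_prime_pow hq).1 hdvd
  have hk0 : k ≠ 0 := by
    rintro rfl
    rw [pow_zero] at hk'
    exact hI.ne_top (Ideal.absNorm_eq_one_iff.1 hk')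
  refine ⟨I, hI, hqI, ⟨k, by omega, hk, hk'⟩, fun x hx => ?_⟩
  have h1 := Ideal.absNorm_dvd_norm_of_mem hx
  rw [hk'] at h1
  exact (Int.natCast_dvd_natCast.2 (dvd_pow_self q hk0)).trans h1

/-- the choice of a prime -/
theorem localize {d D : ℕ} (hd : 1 ≤ d) (hD : 1 ≤ D) {Y : ℝ} (hY : 1 ≤ Y) {K : Type} [Field K]
    [NumberField K] (hK : finrank ℚ K = D) {c₁ z₁ : K} {v : ℕ} {a : 𝓞 K} {u : ℕ → 𝓞 K}
    (hp : Pt d Y c₁ z₁ v a u) (hgen : IntermediateField.adjoin ℚ {c₁, z₁} = ⊤) {w : 𝓞 K}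
    (hw : w ≠ 0) {B : ℝ} (hwB : ∀ σ : K →+* ℂ, ‖σ (w : K)‖ ≤ B) {W : ℕ}
    (hW : (Y * Tb D Y * B) ^ D ≤ W) {Z₀ Z : ℕ}
    (hpr : ∀ w : ℤ, w ≠ 0 → |w| ≤ W → ∃ q : ℕ, q.Prime ∧ Z₀ ≤ q ∧ q ≤ Z ∧ ¬ (q : ℤ) ∣ w) (m : ℕ) :
    ∃ q f : ℕ, q.Prime ∧ Z₀ ≤ q ∧ q ≤ Z ∧ 1 ≤ f ∧ f ≤ D ∧ ∃ (𝔮 : Ideal (𝓞 K))
      (ψ : MA q f →+* 𝓞 K ⧸ 𝔮 ^ m) (c' z' : 𝓞 K) (x y : MA q f), 𝔮.IsMaximal ∧
      Ideal.absNorm 𝔮 = q ^ f ∧ (v : 𝓞 K) ∉ 𝔮 ∧ w ∉ 𝔮 ∧ (∀ w, ψ w = 0 ↔ w ∈ mm q f ^ m) ∧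
      ψ x = Ideal.Quotient.mk (𝔮 ^ m) c' ∧ ψ y = Ideal.Quotient.mk (𝔮 ^ m) z' ∧
      a - (v : 𝓞 K) ^ d * c' ∈ 𝔮 ^ m ∧ ∀ i, u i - (v : 𝓞 K) * orb d c' z' i ∈ 𝔮 ^ m := by
  have hv0 : (v : K) ≠ 0 := Nat.cast_ne_zero.2 hp.v0
  have hgen' : IntermediateField.adjoin ℚ {(a : K), (u 0 : K)} = ⊤ := by
    rw [eq_top_iff, ← hgen, IntermediateField.adjoin_le_iff]
    have hvm : ∀ n : ℕ, (v : K) ^ n ∈ IntermediateField.adjoin ℚ {(a : K), (u 0 : K)} := by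
      intro n
      exact pow_mem (natCast_mem _ v) n
    rintro y (rfl | hy)
    · have h1 : y = ((v : K) ^ d)⁻¹ * (a : K) := by
        rw [hp.ha]
        field_simp
      rw [h1]
      exact mul_mem (inv_mem (hvm d)) (IntermediateField.subset_adjoin ℚ _ (Set.mem_insert _ _))
    · rw [Set.mem_singleton_iff] at hy
      have h1 : y = ((v : K) ^ 1)⁻¹ * (u 0 : K) := by
        rw [hp.hu 0, PP.orb_zero, hy]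
        field_simp
      rw [h1]
      exact mul_mem (inv_mem (hvm 1)) (IntermediateField.subset_adjoin ℚ _
        (Set.mem_insert_of_mem _ rfl))
  obtain ⟨t, ht0, htB, htq⟩ := test_elt hgen' hY hp.aY (hp.uY 0)
  have hB0 : 0 ≤ B := by
    obtain ⟨φ⟩ : Nonempty (K →+* ℂ) := inferInstance
    exact (norm_nonneg _).trans (hwB φ)
  have hTb0 : 0 ≤ Tb D Y := by unfold Tb; positivity
  set ω : 𝓞 K := (v : 𝓞 K) * t * w with hω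
  have hω0 : ω ≠ 0 := mul_ne_zero (mul_ne_zero (Nat.cast_ne_zero.2 hp.v0) ht0) hw
  have hωN : |((Algebra.norm ℤ ω : ℤ) : ℝ)| ≤ (Y * Tb D Y * B) ^ (finrank ℚ K) := by
    apply PP.norm_le_of
    intro σ
    set φ : 𝓞 K →+* ℂ := σ.comp (algebraMap (𝓞 K) K) with hφ
    show ‖φ ω‖ ≤ _
    rw [hω, map_mul, map_mul, norm_mul, norm_mul, map_natCast, Complex.norm_natCast]
    have h1 := htB σ
    rw [hK] at h1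
    have h2 := hwB σ
    have h3 := hp.vY
    exact mul_le_mul (mul_le_mul h3 h1 (norm_nonneg _) (by linarith)) h2 (norm_nonneg _)
      (by positivity)
  rw [hK] at hωN
  obtain ⟨q, hq, hZ₀, hZ, hqd⟩ := hpr (Algebra.norm ℤ ω) (Algebra.norm_ne_zero_iff.2 hω0) (by
    have := hωN.trans hW
    exact_mod_cast this)
  obtain ⟨𝔮, hmax, hq1, ⟨f, hf1, hfD, hfN⟩, hdvd⟩ := exists_qi' K hq
  rw [hK] at hfD
  have hω𝔮 : ω ∉ 𝔮 := fun h => hqd (hdvd ω h)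
  have hv𝔮 : (v : 𝓞 K) ∉ 𝔮 := fun h =>
    hω𝔮 (Ideal.mul_mem_right _ _ (Ideal.mul_mem_right _ _ h))
  have ht𝔮 : t ∉ 𝔮 := fun h => hω𝔮 (Ideal.mul_mem_right _ _ (Ideal.mul_mem_left _ _ h))
  have hw𝔮 : w ∉ 𝔮 := fun h => hω𝔮 (Ideal.mul_mem_left _ _ h)
  have hq2 : (q : 𝓞 K) ∉ 𝔮 ^ 2 := fun h => ht𝔮 (htq 𝔮 q hq h)
  obtain ⟨ψ, hψs, hψ⟩ := exists_psi hq hf1 hmax hq1 hq2 hfN m
  obtain ⟨c', z', hc', hz'⟩ := PP.reduce hd hmax hv𝔮 m (hp.rel hd)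
  obtain ⟨x, hx⟩ := hψs (Ideal.Quotient.mk (𝔮 ^ m) c')
  obtain ⟨y, hy⟩ := hψs (Ideal.Quotient.mk (𝔮 ^ m) z')
  exact ⟨q, f, hq, hZ₀, hZ, hf1, hfD, 𝔮, ψ, c', z', x, y, hmax, hfN, hv𝔮, hw𝔮, hψ, hx, hy, hc', hz'⟩

end Pool.Agent.Y673.PQ
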