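import Mathlib

/-!
Unramified models: the ring `ℤ[T] / (g)` with `g` irreducible modulo `q` (helper673).
-/

set_option autoImplicit false

namespace Pool.Agent.Y673.PQ

open Polynomial

/-- the ideal `(q)` of the integers -/
abbrev iq (q : ℕ) : Ideal ℤ := Ideal.span {(q : ℤ)}

theorem iq_max {q : ℕ} (hq : q.Prime) : (iq q).IsMaximal :=
  PrincipalIdealRing.isMaximal_of_irreducible (Nat.prime_iff_prime_int.1 hq).irreducible

theorem card_iq (n : ℕ) : Nat.card (ℤ ⧸ iq n) = n := by
  rw [Nat.card_congr (Int.quotientSpanNatEquivZMod n).toEquiv, Nat.card_zmod]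

/-- irreducible polynomials of every degree -/
theorem exists_g {q f : ℕ} (hq : q.Prime) (hf : 1 ≤ f) : ∃ g : ℤ[X], g.Monic ∧ g.natDegree = f ∧
    Irreducible (g.map (Ideal.Quotient.mk (iq q))) ∧
    (g.map (Ideal.Quotient.mk (iq q))).Separable := by
  haveI : Fact q.Prime := ⟨hq⟩
  obtain ⟨x, hx⟩ := Field.exists_primitive_element (ZMod q) (GaloisField q f)
  have hint : IsIntegral (ZMod q) x := Algebra.IsIntegral.isIntegral x
  set P := minpoly (ZMod q) x with hP
  have hPm : P.Monic := minpoly.monic hint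
  have hPi : Irreducible P := minpoly.irreducible hint
  have hPs : P.Separable := Algebra.IsSeparable.isSeparable (ZMod q) x
  have hPd : P.natDegree = f := by
    rw [hP, ← IntermediateField.adjoin.finrank hint, hx, IntermediateField.finrank_top',
      GaloisField.finrank q (by omega)]
  set e : ZMod q ≃+* ℤ ⧸ iq q := (Int.quotientSpanNatEquivZMod q).symm with he
  have hP' : P.map (e : ZMod q →+* ℤ ⧸ iq q) ∈ lifts (Ideal.Quotient.mk (iq q)) := by
    rw [lifts_iff_coeff_lifts]
    intro n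
    exact Ideal.Quotient.mk_surjective _
  have hnt : Nontrivial (ℤ ⧸ iq q) := e.injective.nontrivial
  obtain ⟨g, h1, h2, h3⟩ := lifts_and_natDegree_eq_and_monic hP' (hPm.map _)
  refine ⟨g, h3, ?_, ?_, ?_⟩
  · rw [h2, hPm.natDegree_map, hPd]
  · rw [h1]
    have h4 := (MulEquiv.irreducible_iff (Polynomial.mapEquiv e) (x := P)).2 hPi
    exact h4
  · rw [h1]
    exact hPs.map

open scoped Classical in
/-- the chosen polynomial -/
noncomputable def gq (q f : ℕ) : ℤ[X] :=
  if h : q.Prime ∧ 1 ≤ f then (exists_g h.1 h.2).choose else 0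

theorem gq_spec {q f : ℕ} (hq : q.Prime) (hf : 1 ≤ f) : (gq q f).Monic ∧ (gq q f).natDegree = f ∧
    Irreducible ((gq q f).map (Ideal.Quotient.mk (iq q))) ∧
    ((gq q f).map (Ideal.Quotient.mk (iq q))).Separable := by
  unfold gq
  rw [dif_pos ⟨hq, hf⟩]
  exact (exists_g hq hf).choose_spec

/-- the model ring -/
abbrev MA (q f : ℕ) : Type := AdjoinRoot (gq q f)

/-- its maximal ideal -/
noncomputable def mm (q f : ℕ) : Ideal (MA q f) := Ideal.span {(q : MA q f)}

theorem mm_pow (q f k : ℕ) : mm q f ^ k = Ideal.span {((q ^ k : ℕ) : MA q f)} := by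
  unfold mm
  rw [Ideal.span_singleton_pow]
  push_cast
  rfl

theorem map_iq (q f n : ℕ) : (iq n).map (AdjoinRoot.of (gq q f)) = Ideal.span {(n : MA q f)} := by
  rw [Ideal.map_span, Set.image_singleton, map_natCast]

theorem card_span {q f : ℕ} (hq : q.Prime) (hf : 1 ≤ f) {n : ℕ} (hn : 2 ≤ n) :
    Nat.card (MA q f ⧸ Ideal.span {(n : MA q f)}) = n ^ f := by
  obtain ⟨h1, h2, -, -⟩ := gq_spec hq hf
  rw [← map_iq]
  rw [Nat.card_congr (AdjoinRoot.quotAdjoinRootEquivQuotPolynomialQuot (iq n) (gq q f)).toEquiv]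
  have hfact : Fact (1 < n) := ⟨by omega⟩
  have hnt : Nontrivial (ℤ ⧸ iq n) := (Int.quotientSpanNatEquivZMod n).symm.injective.nontrivial
  have h3 : ((gq q f).map (Ideal.Quotient.mk (iq n))).Monic := h1.map _
  have h4 : ((gq q f).map (Ideal.Quotient.mk (iq n))).natDegree = f := by
    rw [h1.natDegree_map, h2]
  have h5 := Nat.card_congr (AdjoinRoot.powerBasis' h3).basis.equivFun.toEquiv
  have h6 : Nat.card (AdjoinRoot ((gq q f).map (Ideal.Quotient.mk (iq n)))) = n ^ f := by
    rw [h5, Nat.card_fun, Nat.card_eq_fintype_card (α := Fin _), Fintype.card_fin,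
      AdjoinRoot.powerBasis'_dim, h4, card_iq]
  exact h6

theorem card_mm {q f : ℕ} (hq : q.Prime) (hf : 1 ≤ f) (k : ℕ) :
    Nat.card (MA q f ⧸ mm q f ^ k) = (q ^ f) ^ k := by
  rcases Nat.eq_zero_or_pos k with h0 | h0
  · rw [h0, pow_zero, pow_zero, Ideal.one_eq_top]
    have hss : Subsingleton (MA q f ⧸ (⊤ : Ideal (MA q f))) := Ideal.Quotient.subsingleton_iff.2 rfl
    exact Nat.card_unique
  · rw [mm_pow, card_span hq hf, ← pow_mul, ← pow_mul, mul_comm]
    calc 2 ≤ q := hq.two_le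
      _ ≤ q ^ k := Nat.le_self_pow (by omega) q

theorem finite_mm {q f : ℕ} (hq : q.Prime) (hf : 1 ≤ f) (k : ℕ) :
    Finite (MA q f ⧸ mm q f ^ k) := by
  apply Nat.finite_of_card_ne_zero
  rw [card_mm hq hf]
  have := hq.pos
  positivity

theorem mm_max {q f : ℕ} (hq : q.Prime) (hf : 1 ≤ f) : (mm q f).IsMaximal := by
  obtain ⟨-, -, h3, -⟩ := gq_spec hq hf
  haveI := iq_max hq
  letI := Ideal.Quotient.field (iq q)
  have h4 : (Ideal.span {(gq q f).map (Ideal.Quotient.mk (iq q))}).IsMaximal :=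
    PrincipalIdealRing.isMaximal_of_irreducible h3
  have h5 := (Ideal.Quotient.maximal_ideal_iff_isField_quotient _).1 h4
  have h6 : IsField (MA q f ⧸ (iq q).map (AdjoinRoot.of (gq q f))) :=
    (AdjoinRoot.quotAdjoinRootEquivQuotPolynomialQuot (iq q) (gq q f)).toMulEquiv.isField h5
  rw [map_iq] at h6
  exact (Ideal.Quotient.maximal_ideal_iff_isField_quotient _).2 h6

end Pool.Agent.Y673.PQ
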