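import Pool.Agent.Y673.PQ.Unr

/-!
An integer of bounded size which is contained in all ramified primes (helper673).
-/

set_option autoImplicit false

namespace Pool.Agent.Y673.PQ

open Polynomial NumberField Module

section
variable {K : Type} [Field K] [NumberField K]

theorem alg_adjoin {s : Set K} (h : IntermediateField.adjoin ℚ s = ⊤) : Algebra.adjoin ℚ s = ⊤ := by
  rw [← IntermediateField.adjoin_toSubalgebra, h]
  rfl

/-- a primitive element which is a small combination -/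
theorem exists_prim (x y : K) (h : IntermediateField.adjoin ℚ {x, y} = ⊤) :
    ∃ k : ℕ, k ≤ finrank ℚ K ∧ IntermediateField.adjoin ℚ {x + k * y} = ⊤ := by
  classical
  obtain ⟨φ⟩ : Nonempty (K →ₐ[ℚ] ℂ) := by
    apply Fintype.card_pos_iff.1
    rw [AlgHom.card]
    exact finrank_pos
  by_contra hcon
  push Not at hcon
  have hbad : ∀ k : Fin (finrank ℚ K + 1), ∃ ψ : K →ₐ[ℚ] ℂ,
      φ (x + (k : ℕ) * y) = ψ (x + (k : ℕ) * y) ∧ φ ≠ ψ := by
    intro k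
    have h1 := hcon k (by have := k.2; omega)
    rw [Ne, Field.primitive_element_iff_algHom_eq_of_eval ℚ ℂ
      (fun x => IsAlgClosed.splits _) _ φ] at h1
    push Not at h1
    exact h1
  choose ψ hψ1 hψ2 using hbad
  obtain ⟨k, k', hkk, hkψ⟩ := Fintype.exists_ne_map_eq_of_card_lt ψ (by
    rw [AlgHom.card, Fintype.card_fin]; exact Nat.lt_succ_self _)
  have e1 := hψ1 k
  have e2 := hψ1 k'
  rw [← hkψ] at e2
  rw [map_add, map_add, map_mul, map_mul, map_natCast, map_natCast] at e1 e2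
  have hk : ((k : ℕ) : ℂ) - ((k' : ℕ) : ℂ) ≠ 0 := by
    rw [sub_ne_zero]
    intro h0
    exact hkk (Fin.ext (Nat.cast_injective h0))
  have hy : φ y = ψ k y := by
    have h3 : (((k : ℕ) : ℂ) - ((k' : ℕ) : ℂ)) * (φ y - ψ k y) = 0 := by
      linear_combination e1 - e2
    rcases mul_eq_zero.1 h3 with h4 | h4
    · exact absurd h4 hk
    · exact sub_eq_zero.1 h4
  have hx : φ x = ψ k x := by
    rw [hy] at e1
    exact add_right_cancel e1
  apply hψ2 k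
  have h5 : Algebra.adjoin ℚ {x, y} ≤ AlgHom.equalizer φ (ψ k) := by
    rw [Algebra.adjoin_le_iff]
    rintro w (rfl | hw)
    · exact hx
    · rw [Set.mem_singleton_iff] at hw
      rw [hw]; exact hy
  rw [alg_adjoin h] at h5
  ext w
  exact h5 Algebra.mem_top

/-- the different of an element -/
noncomputable def tt (θ : 𝓞 K) : 𝓞 K := aeval θ (derivative (minpoly ℤ θ))

theorem unram {θ : 𝓞 K} (hθ : Algebra.adjoin ℚ {(θ : K)} = ⊤) {𝔮 : Ideal (𝓞 K)} {q : ℕ}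
    (hq : q.Prime) (h2 : (q : 𝓞 K) ∈ 𝔮 ^ 2) : tt θ ∈ 𝔮 := by
  haveI : (Ideal.span {(q : ℤ)}).IsMaximal := iq_max hq
  have hp : Ideal.span {(q : ℤ)} ≠ ⊥ := by
    rw [Ne, Ideal.span_singleton_eq_bot]
    exact_mod_cast hq.ne_zero
  have hP : 𝔮 ^ 2 ∣ (Ideal.span {(q : ℤ)}).map (algebraMap ℤ (𝓞 K)) := by
    rw [Ideal.map_span, Set.image_singleton, Ideal.dvd_span_singleton, map_natCast]
    exact h2
  have h3 := pow_sub_one_dvd_differentIdeal_aux ℤ ℚ K 𝔮 (e := 2) two_ne_zero hp hP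
  have h4 := aeval_derivative_mem_differentIdeal ℤ ℚ K θ hθ
  have h5 : 𝔮 ^ (2 - 1) = 𝔮 := pow_one 𝔮
  rw [h5] at h3
  exact Ideal.dvd_iff_le.1 h3 h4

theorem minpoly_map (θ : 𝓞 K) : minpoly ℚ (θ : K) = (minpoly ℤ θ).map (algebraMap ℤ ℚ) :=
  minpoly.isIntegrallyClosed_eq_field_fractions ℚ K (Algebra.IsIntegral.isIntegral θ)

theorem tt_coe (θ : 𝓞 K) : ((tt θ : 𝓞 K) : K) = aeval (θ : K) (derivative (minpoly ℚ (θ : K))) := by
  rw [minpoly_map, derivative_map, aeval_map_algebraMap]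
  exact (aeval_algebraMap_apply K θ (derivative (minpoly ℤ θ))).symm

theorem tt_ne (θ : 𝓞 K) : tt θ ≠ 0 := by
  intro h0
  have h1 : ((tt θ : 𝓞 K) : K) = 0 := by rw [h0]; rfl
  rw [tt_coe] at h1
  have h2 : (minpoly ℚ (θ : K)).Separable := Algebra.IsSeparable.isSeparable ℚ _
  exact h2.aeval_derivative_ne_zero (minpoly.aeval ℚ _) h1

theorem tt_norm {θ : 𝓞 K} {B : ℝ} (hB : 1 ≤ B) (h : ∀ σ : K →+* ℂ, ‖σ (θ : K)‖ ≤ B)
    (σ : K →+* ℂ) : ‖σ (tt θ : K)‖ ≤ (finrank ℚ K + 1) ^ 2 * 2 ^ (finrank ℚ K) *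
      B ^ (2 * finrank ℚ K) := by
  set D := finrank ℚ K with hD
  set P := minpoly ℚ (θ : K) with hP
  have hcoef : ∀ i, ‖(P.coeff i : ℂ)‖ ≤ 2 ^ D * B ^ D := by
    intro i
    have h1 := NumberField.Embeddings.coeff_bdd_of_norm_le h i
    rw [max_eq_left hB] at h1
    have h2 : ((D.choose (D / 2) : ℕ) : ℝ) ≤ 2 ^ D := by
      exact_mod_cast Nat.choose_le_two_pow D (D / 2)
    have h3 : ‖((P.coeff i : ℚ) : ℂ)‖ = ‖P.coeff i‖ := by
      rw [Complex.norm_ratCast]; rfl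
    rw [h3]
    calc ‖P.coeff i‖ ≤ B ^ D * (D.choose (D / 2) : ℕ) := h1
      _ ≤ B ^ D * 2 ^ D := by gcongr
      _ = _ := mul_comm _ _
  have hdeg : P.natDegree ≤ D := minpoly.natDegree_le (θ : K)
  have h1 : σ (tt θ : K) = ∑ i ∈ Finset.range (D + 1),
      ((P.coeff (i + 1) : ℂ) * (i + 1)) * (σ (θ : K)) ^ i := by
    rw [tt_coe]
    have h2 : σ (aeval (θ : K) (derivative P)) = (derivative P).eval₂ (algebraMap ℚ ℂ) (σ (θ : K)) := by
      rw [aeval_def, hom_eval₂]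
      congr 1
      exact Subsingleton.elim _ _
    rw [h2, eval₂_eq_sum_range' _ (n := D + 1)]
    · apply Finset.sum_congr rfl
      intro i _
      rw [coeff_derivative]
      simp
    · exact Nat.lt_succ_of_le ((natDegree_derivative_le P).trans (by omega))
  rw [h1]
  have h2 : ∀ i ∈ Finset.range (D + 1), ‖((P.coeff (i + 1) : ℂ) * (i + 1)) * (σ (θ : K)) ^ i‖ ≤
      (2 ^ D * B ^ D * (D + 1)) * B ^ D := by
    intro i hi
    have hi' := Finset.mem_range.1 hi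
    rw [norm_mul, norm_mul, norm_pow]
    have h3 : ‖((i : ℂ) + 1)‖ ≤ D + 1 := by
      have : ((i : ℂ) + 1) = ((i + 1 : ℕ) : ℂ) := by push_cast; rfl
      rw [this, Complex.norm_natCast]
      exact_mod_cast hi'
    have h4 : ‖σ (θ : K)‖ ^ i ≤ B ^ D := by
      calc ‖σ (θ : K)‖ ^ i ≤ B ^ i := pow_le_pow_left₀ (norm_nonneg _) (h σ) i
        _ ≤ B ^ D := pow_le_pow_right₀ hB (by omega)
    have h5 := hcoef (i + 1)
    gcongr
  refine (norm_sum_le _ _).trans ((Finset.sum_le_card_nsmul _ _ _ h2).trans (le_of_eq ?_))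
  rw [Finset.card_range, nsmul_eq_mul, two_mul, pow_add]
  push_cast
  ring

/-- the bound for the conjugates of the test element -/
noncomputable def Tb (D : ℕ) (Y : ℝ) : ℝ := (D + 1) ^ 2 * 2 ^ D * ((D + 1) * Y) ^ (2 * D)

theorem test_elt {x y : 𝓞 K} (hgen : IntermediateField.adjoin ℚ {(x : K), (y : K)} = ⊤) {Y : ℝ}
    (hY : 1 ≤ Y) (hx : ∀ σ : K →+* ℂ, ‖σ (x : K)‖ ≤ Y) (hy : ∀ σ : K →+* ℂ, ‖σ (y : K)‖ ≤ Y) :
    ∃ t : 𝓞 K, t ≠ 0 ∧ (∀ σ : K →+* ℂ, ‖σ (t : K)‖ ≤ Tb (finrank ℚ K) Y) ∧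
      ∀ (𝔮 : Ideal (𝓞 K)) (q : ℕ), q.Prime → (q : 𝓞 K) ∈ 𝔮 ^ 2 → t ∈ 𝔮 := by
  obtain ⟨k, hk, hgk⟩ := exists_prim (x : K) (y : K) hgen
  have hθ : ((x + (k : 𝓞 K) * y : 𝓞 K) : K) = (x : K) + (k : K) * (y : K) := by
    show algebraMap (𝓞 K) K _ = _
    rw [map_add, map_mul, map_natCast]
  refine ⟨tt (x + (k : 𝓞 K) * y), tt_ne _, fun σ => ?_, fun 𝔮 q hq h2 => ?_⟩
  · unfold Tb
    apply tt_norm
    · have : (1 : ℝ) ≤ (finrank ℚ K : ℝ) + 1 := by
        have : (0 : ℝ) ≤ (finrank ℚ K : ℝ) := Nat.cast_nonneg _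
        linarith
      nlinarith
    · intro τ
      rw [hθ, map_add, map_mul, map_natCast]
      have hk' : (k : ℝ) ≤ finrank ℚ K := by exact_mod_cast hk
      calc ‖τ (x : K) + (k : ℂ) * τ (y : K)‖ ≤ ‖τ (x : K)‖ + ‖(k : ℂ) * τ (y : K)‖ := norm_add_le _ _
        _ ≤ Y + (finrank ℚ K) * Y := by
            rw [norm_mul, Complex.norm_natCast]
            have h1 := hx τ
            have h2 := hy τ
            gcongr
        _ = _ := by ring
  · apply unram _ hq h2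
    rw [hθ]
    exact alg_adjoin hgk

end

end Pool.Agent.Y673.PQ
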