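import Pool.Agent.Y673.PQ.Asq

/-!
All unicritical polynomials over all number fields of bounded degree (helper673).
-/

set_option autoImplicit false

namespace Pool.Agent.Y673.PQ

open Polynomial NumberField Module
open Pool.Agent.Y673.PP (orb E2 Pt gm gt hm Gd it Prep Sz)

theorem Gd.mono {S : Type} [CommRing S] {d N N' : ℕ} (h : N ≤ N') {c z : S} (hG : Gd d N c z) :
    Gd d N' c z := by
  obtain ⟨i, j, h1, h2, h3⟩ := hG
  exact ⟨i, j, h1, h2.trans h, h3⟩

theorem count_all {d : ℕ} (hd : 2 ≤ d) (ε : ℝ) (hε : 0 < ε) (D : ℕ) :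
    ∃ (N : ℕ) (C : ℝ), 0 ≤ C ∧ ∀ X : ℝ, 1 ≤ X → ∀ S : Finset ℂ, (∀ c ∈ S, ∃ (z : ℂ) (D' : ℕ),
      1 ≤ D' ∧ D' ≤ D ∧ Gl d D' (2 * X ^ (d + 1)) c z ∧ ¬ Gd d N c z) →
      (S.card : ℝ) ≤ C * X ^ ε := by
  classical
  induction D with
  | zero =>
    refine ⟨0, 0, le_refl _, fun X hX S hS => ?_⟩
    have : S = ∅ := by
      rw [Finset.eq_empty_iff_forall_notMem]
      intro c hc
      obtain ⟨z, D', h1, h2, -⟩ := hS c hc
      omega
    rw [this]
    simp
  | succ D ih =>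
    obtain ⟨N₁, C₁, hC₁, h1⟩ := ih
    obtain ⟨N₂, C₂, hC₂, h2⟩ := count_exc' hd (D + 1) (by omega) ε hε
    refine ⟨max N₁ N₂, C₁ + C₂, by linarith, fun X hX S hS => ?_⟩
    set P : ℂ → Prop := fun c => ∃ z : ℂ, Gl d (D + 1) (2 * X ^ (d + 1)) c z ∧ ¬ Gd d N₂ c z with hP
    have h3 := h2 X hX (S.filter P) (fun c hc => (Finset.mem_filter.1 hc).2)
    have h4 := h1 X hX (S.filter fun c => ¬ P c) (by
      intro c hc
      obtain ⟨hcS, hcP⟩ := Finset.mem_filter.1 hc
      obtain ⟨z, D', h5, h6, h7, h8⟩ := hS c hcS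
      refine ⟨z, D', h5, ?_, h7, fun h9 => h8 (Gd.mono (le_max_left _ _) h9)⟩
      by_contra hcon
      have : D' = D + 1 := by omega
      subst this
      exact hcP ⟨z, h7, fun h9 => h8 (Gd.mono (le_max_right _ _) h9)⟩)
    have h5 : (S.card : ℝ) = ((S.filter P).card : ℝ) + ((S.filter fun c => ¬ P c).card : ℝ) := by
      exact_mod_cast (Finset.card_filter_add_card_filter_not P).symm
    rw [h5, add_mul]
    linarith

theorem cauchy {P : ℤ[X]} (hP : P ≠ 0) {X : ℝ} (hX : ∀ i, |((P.coeff i : ℤ) : ℝ)| ≤ X) {r : ℂ}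
    (hr : aeval r P = 0) : ‖r‖ ≤ X + 1 := by
  set p : ℂ[X] := P.map (Int.castRingHom ℂ) with hp
  have hinj : Function.Injective (Int.castRingHom ℂ) := Int.cast_injective
  have hp0 : p ≠ 0 := (Polynomial.map_ne_zero_iff hinj).2 hP
  have hroot : p.IsRoot r := by
    rw [IsRoot.def, hp, eval_map]
    rw [aeval_def] at hr
    exact hr
  have h1 := Polynomial.IsRoot.norm_lt_cauchyBound hp0 hroot
  have hX0 : 0 ≤ X := (abs_nonneg _).trans (hX 0)
  have h2 : ((Finset.range p.natDegree).sup (‖p.coeff ·‖₊)) ≤ X.toNNReal := by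
    apply Finset.sup_le
    intro i _
    rw [← NNReal.coe_le_coe, Real.coe_toNNReal _ hX0, coe_nnnorm, hp, coeff_map]
    have : ‖(Int.castRingHom ℂ) (P.coeff i)‖ = |((P.coeff i : ℤ) : ℝ)| := by
      rw [eq_intCast, Complex.norm_intCast]
    rw [this]
    exact hX i
  have h3 : (1 : NNReal) ≤ ‖p.leadingCoeff‖₊ := by
    rw [← NNReal.coe_le_coe, coe_nnnorm, hp, leadingCoeff_map_of_injective hinj, eq_intCast,
      Complex.norm_intCast, NNReal.coe_one]
    have : 1 ≤ |P.leadingCoeff| := Int.one_le_abs (leadingCoeff_ne_zero.2 hP)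
    exact_mod_cast this
  have h4 : cauchyBound p ≤ X.toNNReal + 1 := by
    unfold cauchyBound
    apply add_le_add_left
    calc ((Finset.range p.natDegree).sup (‖p.coeff ·‖₊)) / ‖p.leadingCoeff‖₊ ≤
        ((Finset.range p.natDegree).sup (‖p.coeff ·‖₊)) / 1 := by gcongr
      _ ≤ X.toNNReal := by rw [div_one]; exact h2
  have h5 := h1.le.trans h4
  rw [← NNReal.coe_le_coe, coe_nnnorm, NNReal.coe_add, Real.coe_toNNReal _ hX0] at h5
  exact h5

theorem gl_of {d : ℕ} (hd : 2 ≤ d) {c z : ℂ} (hpre : Prep d c z) {P : ℤ[X]} (hP : P ≠ 0) {X : ℝ}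
    (hX1 : 1 ≤ X) (hX : ∀ i, |((P.coeff i : ℤ) : ℝ)| ≤ X) (hr : aeval c P = 0)
    (hfin : FiniteDimensional ℚ (IntermediateField.adjoin ℚ {c, z})) :
    Gl d (finrank ℚ (IntermediateField.adjoin ℚ {c, z})) (2 * (2 * X) ^ (d + 1)) c z := by
  set L := IntermediateField.adjoin ℚ {c, z} with hL
  haveI : NumberField L := { to_charZero := inferInstance, to_finiteDimensional := hfin }
  have hcL : c ∈ L := IntermediateField.subset_adjoin ℚ _ (Set.mem_insert _ _)
  have hzL : z ∈ L := IntermediateField.subset_adjoin ℚ _ (Set.mem_insert_of_mem _ rfl)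
  set c₁ : L := ⟨c, hcL⟩ with hc₁
  set z₁ : L := ⟨z, hzL⟩ with hz₁
  set σ : L →+* ℂ := L.val.toRingHom with hσ
  have hgen : IntermediateField.adjoin ℚ {c₁, z₁} = ⊤ := by
    rw [eq_top_iff]
    rintro ⟨x, hx⟩ -
    induction hx using IntermediateField.adjoin_induction with
    | mem x h =>
      rcases h with h | h
      · have : (⟨x, IntermediateField.subset_adjoin ℚ _ (Or.inl h)⟩ : L) = c₁ := Subtype.ext h
        rw [this]
        exact IntermediateField.subset_adjoin ℚ _ (Set.mem_insert _ _)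
      · have : (⟨x, IntermediateField.subset_adjoin ℚ _ (Or.inr h)⟩ : L) = z₁ :=
          Subtype.ext (Set.mem_singleton_iff.1 h)
        rw [this]
        exact IntermediateField.subset_adjoin ℚ _ (Set.mem_insert_of_mem _ rfl)
    | algebraMap x =>
      have : (⟨algebraMap ℚ ℂ x, IntermediateField.algebraMap_mem _ x⟩ : L) = ((x : ℚ) : L) := by
        apply Subtype.ext
        show algebraMap ℚ ℂ x = (((x : ℚ) : L) : ℂ)
        rw [eq_ratCast]
        rfl
      rw [this]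
      exact SubfieldClass.ratCast_mem _ x
    | add x y hx hy h1 h2 => exact add_mem h1 h2
    | inv x hx h1 => exact inv_mem h1
    | mul x y hx hy h1 h2 => exact mul_mem h1 h2
  have hpre' : Prep d c₁ z₁ := by
    obtain ⟨m, n, hmn, he⟩ := hpre
    refine ⟨m, n, hmn, σ.injective ?_⟩
    rw [PP.orb_map, PP.orb_map]
    exact he
  have hr' : aeval c₁ P = 0 := by
    apply σ.injective
    rw [map_zero, ← hr]
    exact (aeval_algHom_apply (L.val.restrictScalars ℤ) c₁ P).symm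
  set v : ℕ := P.leadingCoeff.natAbs with hv
  have hlc0 : P.leadingCoeff ≠ 0 := leadingCoeff_ne_zero.2 hP
  have hsz : Sz (2 * X) v c₁ := by
    refine ⟨Int.natAbs_ne_zero.2 hlc0, ?_, ?_, fun τ => ?_⟩
    · have h1 := hX P.natDegree
      have h2 : (v : ℝ) = |((P.coeff P.natDegree : ℤ) : ℝ)| := by
        rw [hv, Nat.cast_natAbs, coeff_natDegree]
        push_cast
        rfl
      rw [h2]
      linarith
    · have h1 : IsIntegral ℤ (P.leadingCoeff • c₁) := isIntegral_leadingCoeff_smul P c₁ hr'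
      rw [zsmul_eq_mul] at h1
      rcases Int.natAbs_eq P.leadingCoeff with h2 | h2
      · rw [h2] at h1
        rw [← hv, Int.cast_natCast] at h1
        exact h1
      · rw [h2] at h1
        rw [← hv, Int.cast_neg, Int.cast_natCast, neg_mul] at h1
        have := h1.neg
        rwa [neg_neg] at this
    · have h1 : aeval (τ c₁) P = 0 := by
        have h2 := congrArg τ hr'
        rw [map_zero, aeval_def, hom_eval₂] at h2
        rw [aeval_def, ← h2]
        congr 1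
        exact Subsingleton.elim _ _
      have h3 := cauchy hP hX h1
      linarith
  obtain ⟨a, u, hp⟩ := PP.exists_pt hd hsz hpre'
  exact Gl.mk' (σ := σ) rfl rfl rfl hp hgen

/-- the naive height of an algebraic number of degree at most `D` is at most `X` -/
def Ht (D : ℕ) (X : ℝ) (t : ℂ) : Prop :=
  ∃ P : ℤ[X], P ≠ 0 ∧ P.natDegree ≤ D ∧ (∀ i, |((P.coeff i : ℤ) : ℝ)| ≤ X) ∧ aeval t P = 0

/-- the preperiodic points `z` of `w ↦ a w ^ d + b` for which `a`, `b`, `z` generate a field of degree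
at most `D` -/
def PreD (d D : ℕ) (a b : ℂ) : Set ℂ :=
  {z | FiniteDimensional ℚ (IntermediateField.adjoin ℚ {a, b, z}) ∧
    finrank ℚ (IntermediateField.adjoin ℚ {a, b, z}) ≤ D ∧
    (Set.range fun k : ℕ => (fun w : ℂ => a * w ^ d + b)^[k] z).Finite}

/-- the degree of the field of definition -/
theorem deg_le {d : ℕ} (hd : 2 ≤ d) {K : IntermediateField ℚ ℂ} (hK : FiniteDimensional ℚ K)
    {c t : ℂ} (ht : t ∈ K) (hc : c ^ (d - 1) = t) {r z₀ : ℂ} (hr : r ∈ K) (hz₀ : z₀ ∈ K) :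
    FiniteDimensional ℚ (IntermediateField.adjoin ℚ {c, c * r * z₀}) ∧
      finrank ℚ (IntermediateField.adjoin ℚ {c, c * r * z₀}) ≤ finrank ℚ K * (d - 1) := by
  set t' : K := ⟨t, ht⟩ with ht'
  set p : (K)[X] := X ^ (d - 1) - C t' with hp
  have hpm : p.Monic := monic_X_pow_sub_C _ (by omega)
  have hpd : p.natDegree = d - 1 := natDegree_X_pow_sub_C
  have hpe : aeval c p = 0 := by
    rw [hp, map_sub, map_pow, aeval_X, aeval_C, hc]
    exact sub_self _
  have hint : IsIntegral K c := ⟨p, hpm, hpe⟩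
  have hd1 : finrank K (IntermediateField.adjoin K {c}) ≤ d - 1 := by
    rw [IntermediateField.adjoin.finrank hint, ← hpd]
    exact natDegree_le_of_dvd (minpoly.dvd K c hpe) hpm.ne_zero
  haveI : FiniteDimensional K (IntermediateField.adjoin K {c}) :=
    IntermediateField.adjoin.finiteDimensional hint
  set M : IntermediateField ℚ ℂ := (IntermediateField.adjoin K {c}).restrictScalars ℚ with hM
  have hMfin : FiniteDimensional ℚ M := FiniteDimensional.trans ℚ K (IntermediateField.adjoin K {c})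
  have hMd : finrank ℚ M = finrank ℚ K * finrank K (IntermediateField.adjoin K {c}) :=
    (Module.finrank_mul_finrank ℚ K (IntermediateField.adjoin K {c})).symm
  have hKM : ∀ x ∈ K, x ∈ IntermediateField.adjoin K {c} := fun x hx =>
    (IntermediateField.adjoin K {c}).algebraMap_mem ⟨x, hx⟩
  have hle : IntermediateField.adjoin ℚ {c, c * r * z₀} ≤ M := by
    rw [IntermediateField.adjoin_le_iff]
    have hcM : c ∈ IntermediateField.adjoin K {c} := IntermediateField.mem_adjoin_simple_self K c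
    rintro x (rfl | hx)
    · exact hcM
    · rw [Set.mem_singleton_iff] at hx
      rw [hx]
      exact mul_mem (mul_mem hcM (hKM r hr)) (hKM z₀ hz₀)
  refine ⟨?_, ?_⟩
  · exact FiniteDimensional.of_injective (IntermediateField.inclusion hle).toLinearMap
      (IntermediateField.inclusion hle).injective
  · calc finrank ℚ (IntermediateField.adjoin ℚ {c, c * r * z₀}) ≤ finrank ℚ M :=
          IntermediateField.finrank_le_of_le_right hle
      _ ≤ finrank ℚ K * (d - 1) := by rw [hMd]; exact Nat.mul_le_mul_left _ hd1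

theorem conj_prep {d : ℕ} (hd : 2 ≤ d) {a b c z₀ : ℂ} (hb : b ≠ 0) (hc : c ^ (d - 1) = a * b ^ (d - 1))
    (h : (Set.range fun k : ℕ => (fun w : ℂ => a * w ^ d + b)^[k] z₀).Finite) :
    Prep d c (c * b⁻¹ * z₀) := by
  apply PP.prep_of_finite
  have hsc : Function.Semiconj (fun w : ℂ => c * b⁻¹ * w) (fun w : ℂ => a * w ^ d + b)
      (fun w : ℂ => w ^ d + c) := by
    intro w
    show c * b⁻¹ * (a * w ^ d + b) = (c * b⁻¹ * w) ^ d + c
    have h1 : c ^ d = a * b ^ (d - 1) * c := by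
      rw [← hc, ← pow_succ]; congr 1; omega
    have h2 : b ^ d = b ^ (d - 1) * b := by
      rw [← pow_succ]; congr 1; omega
    rw [mul_pow, mul_pow, h1, inv_pow, h2]
    field_simp
  have h2 : (Set.range fun k : ℕ => (fun w : ℂ => w ^ d + c)^[k] (c * b⁻¹ * z₀)) ⊆
      (fun w : ℂ => c * b⁻¹ * w) '' (Set.range fun k : ℕ => (fun w : ℂ => a * w ^ d + b)^[k] z₀) := by
    rintro _ ⟨k, rfl⟩
    refine ⟨_, ⟨k, rfl⟩, ?_⟩
    exact (hsc.iterate_right k) z₀
  exact (h.image _).subset h2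

theorem few_unicrit {d : ℕ} (hd : 2 ≤ d) (D : ℕ) (ε : ℝ) (hε : 0 < ε) :
    ∃ (N : ℕ) (C : ℝ), ∀ X : ℝ, 1 ≤ X → ∀ S : Finset ℂ, (∀ t ∈ S, Ht D X t ∧
      ∃ a b : ℂ, a * b ^ (d - 1) = t ∧ (N : ℕ∞) < (PreD d D a b).encard) →
      (S.card : ℝ) ≤ C * X ^ ε := by
  classical
  obtain ⟨N₀, C, hC0, hC⟩ := count_all hd ε hε (D * (d - 1))
  refine ⟨(N₀ + 1) * (N₀ + 1) * d ^ N₀, C * 2 ^ ε + 1, fun X hX S hS => ?_⟩
  have hX0 : 0 < X := by linarith
  have hXε : 1 ≤ X ^ ε := Real.one_le_rpow hX hε.le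
  -- the parameters `c`
  have key : ∀ t ∈ S.erase 0, ∃ c : ℂ, c ^ (d - 1) = t ∧ ∃ (z : ℂ) (D' : ℕ), 1 ≤ D' ∧
      D' ≤ D * (d - 1) ∧ Gl d D' (2 * (2 * X) ^ (d + 1)) c z ∧ ¬ Gd d N₀ c z := by
    intro t ht
    obtain ⟨ht0, htS⟩ := Finset.mem_erase.1 ht
    obtain ⟨⟨P, hP0, hPD, hPX, hPt⟩, a, b, hab, hN⟩ := hS t htS
    obtain ⟨c, hc⟩ := IsAlgClosed.exists_pow_nat_eq t (by omega : 0 < d - 1)
    have hb0 : b ≠ 0 := by
      rintro rfl
      rw [zero_pow (by omega), mul_zero] at hab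
      exact ht0 hab.symm
    have hc0 : c ≠ 0 := by
      rintro rfl
      rw [zero_pow (by omega)] at hc
      exact ht0 hc.symm
    have hinj : Function.Injective (fun w : ℂ => c * b⁻¹ * w) :=
      mul_right_injective₀ (mul_ne_zero hc0 (inv_ne_zero hb0))
    have hN' : (((N₀ + 1) * (N₀ + 1) * d ^ N₀ : ℕ) : ℕ∞) <
        ((fun w : ℂ => c * b⁻¹ * w) '' PreD d D a b).encard := by
      rw [hinj.encard_image]
      exact hN
    obtain ⟨z, ⟨z₀, ⟨hK, hKD, hz₀f⟩, rfl⟩, hG⟩ := PP.exists_of_encard hd N₀ c hN'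
    set K := IntermediateField.adjoin ℚ {a, b, z₀} with hKdef
    have haK : a ∈ K := IntermediateField.subset_adjoin ℚ _ (Or.inl rfl)
    have hbK : b ∈ K := IntermediateField.subset_adjoin ℚ _ (Or.inr (Or.inl rfl))
    have hz₀K : z₀ ∈ K := IntermediateField.subset_adjoin ℚ _ (Or.inr (Or.inr rfl))
    have htK : t ∈ K := by
      rw [← hab]
      exact mul_mem haK (pow_mem hbK _)
    obtain ⟨hfin, hdeg⟩ := deg_le hd hK htK hc (inv_mem hbK) hz₀K
    have hprep := conj_prep hd hb0 (hc.trans hab.symm) hz₀f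
    have hgl := gl_of hd hprep (P := expand ℤ (d - 1) P)
      ((expand_ne_zero (by omega)).2 hP0) hX (by
        intro i
        rw [coeff_expand (by omega)]
        split_ifs with h1
        · exact hPX _
        · rw [Int.cast_zero, abs_zero]; linarith) (by rw [expand_aeval, hc, hPt]) hfin
    refine ⟨c, hc, _, _, ?_, hdeg.trans (Nat.mul_le_mul_right _ hKD), hgl, hG⟩
    haveI := hfin
    exact Nat.succ_le_of_lt finrank_pos
  choose! c hc hz using key
  have hinj : Set.InjOn c (S.erase 0 : Finset ℂ) := by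
    intro t ht t' ht' h
    rw [← hc t ht, ← hc t' ht', h]
  have h1 := hC (2 * X) (by linarith) ((S.erase 0).image c) (by
    intro x hx
    obtain ⟨t, ht, rfl⟩ := Finset.mem_image.1 hx
    exact hz t ht)
  rw [Finset.card_image_of_injOn hinj, Real.mul_rpow (by norm_num) hX0.le] at h1
  have h2 : S.card ≤ (S.erase 0).card + 1 := by
    have := Finset.pred_card_le_card_erase (s := S) (a := (0 : ℂ))
    omega
  have h3 : (S.card : ℝ) ≤ (S.erase 0).card + 1 := by exact_mod_cast h2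
  calc (S.card : ℝ) ≤ C * (2 ^ ε * X ^ ε) + 1 * X ^ ε := by linarith
    _ = _ := by ring

/-- the final form -/
theorem few_unicrit' {d : ℕ} (hd : 2 ≤ d) (D : ℕ) (ε : ℝ) (hε : 0 < ε) :
    ∃ (N : ℕ) (C : ℝ), ∀ X : ℝ, 1 ≤ X →
      {t : ℂ | Ht D X t ∧ ∃ a b : ℂ, a * b ^ (d - 1) = t ∧
        (N : ℕ∞) < (PreD d D a b).encard}.Finite ∧
      ({t : ℂ | Ht D X t ∧ ∃ a b : ℂ, a * b ^ (d - 1) = t ∧
        (N : ℕ∞) < (PreD d D a b).encard}.ncard : ℝ) ≤ C * X ^ ε := by
  obtain ⟨N, C, h⟩ := few_unicrit hd D ε hε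
  refine ⟨N, C, fun X hX => ?_⟩
  exact PP.finite_of_card (fun S hS => h X hX S hS)

end Pool.Agent.Y673.PQ
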