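import Pool.Agent.Y673.PQ.Mod
import Pool.Agent.Y673.PP.Num

/-!
The completions of the integers of a number field at unramified primes (helper673).
-/

set_option autoImplicit false

namespace Pool.Agent.Y673.PQ

open Polynomial NumberField Module

/-- a ring homomorphism between finite quotients of the same cardinality -/
theorem bij_of_card {A B : Type} [CommRing A] [CommRing B] (I : Ideal A) (φ : A →+* B)
    (hI : ∀ x ∈ I, φ x = 0) (hfin : Finite (A ⧸ I)) (hcard : Nat.card (A ⧸ I) = Nat.card B)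
    (h : Function.Surjective φ ∨ ∀ x, φ x = 0 → x ∈ I) :
    Function.Surjective φ ∧ ∀ x, φ x = 0 ↔ x ∈ I := by
  set ψ : A ⧸ I →+* B := Ideal.Quotient.lift I φ hI with hψ
  have e : ∀ x, ψ (Ideal.Quotient.mk I x) = φ x := fun x => Ideal.Quotient.lift_mk I φ hI
  have hpos : 0 < Nat.card (A ⧸ I) := Nat.card_pos
  have hfinB : Finite B := Nat.finite_of_card_ne_zero (by omega)
  have hbij : Function.Bijective ψ := by
    rcases h with h1 | h1
    · have h2 : Function.Surjective ψ := by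
        intro y
        obtain ⟨x, hx⟩ := h1 y
        exact ⟨Ideal.Quotient.mk I x, by rw [e, hx]⟩
      exact (Nat.bijective_iff_surjective_and_card ψ).2 ⟨h2, hcard⟩
    · have h2 : Function.Injective ψ := by
        rw [injective_iff_map_eq_zero]
        intro y hy
        obtain ⟨x, rfl⟩ := Ideal.Quotient.mk_surjective y
        rw [e] at hy
        exact Ideal.Quotient.eq_zero_iff_mem.2 (h1 x hy)
      exact (Nat.bijective_iff_injective_and_card ψ).2 ⟨h2, hcard⟩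
  refine ⟨fun y => ?_, fun x => ⟨fun hx => ?_, hI x⟩⟩
  · obtain ⟨x, hx⟩ := hbij.2 y
    obtain ⟨x', rfl⟩ := Ideal.Quotient.mk_surjective x
    exact ⟨x', by rw [← e, hx]⟩
  · have : ψ (Ideal.Quotient.mk I x) = 0 := by rw [e, hx]
    have h3 := (injective_iff_map_eq_zero ψ).1 hbij.1 _ this
    exact Ideal.Quotient.eq_zero_iff_mem.1 h3

section
variable {K : Type} [Field K] [NumberField K] {𝔮 : Ideal (𝓞 K)} {q f : ℕ}

theorem pow_le_sup (h𝔮0 : 𝔮 ≠ ⊥) (hq1 : (q : 𝓞 K) ∈ 𝔮) (hq2 : (q : 𝓞 K) ∉ 𝔮 ^ 2)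
    (h𝔮 : 𝔮.IsMaximal) (k : ℕ) : 𝔮 ^ k ≤ Ideal.span {(q : 𝓞 K) ^ k} ⊔ 𝔮 ^ (k + 1) := by
  have h1 : 𝔮 ≤ Ideal.span {(q : 𝓞 K)} ⊔ 𝔮 ^ 2 := by
    intro x hx
    haveI := h𝔮.isPrime
    obtain ⟨s, e, he, hs⟩ := Ideal.exists_mul_add_mem_pow_succ h𝔮0 (i := 1) (q : 𝓞 K) x
      (by rwa [pow_one]) hq2 (by rwa [pow_one])
    rw [← hs]
    exact Ideal.add_mem _ (Ideal.mem_sup_left (Ideal.mul_mem_right _ _
      (Ideal.mem_span_singleton_self _))) (Ideal.mem_sup_right he)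
  induction k with
  | zero =>
    rw [pow_zero (q : 𝓞 K), Ideal.span_singleton_one, top_sup_eq]
    exact le_top
  | succ k ih =>
    calc 𝔮 ^ (k + 1) = 𝔮 ^ k * 𝔮 := pow_succ _ _
      _ ≤ (Ideal.span {(q : 𝓞 K) ^ k} ⊔ 𝔮 ^ (k + 1)) * (Ideal.span {(q : 𝓞 K)} ⊔ 𝔮 ^ 2) :=
          Ideal.mul_mono ih h1
      _ ≤ Ideal.span {(q : 𝓞 K) ^ (k + 1)} ⊔ 𝔮 ^ (k + 1 + 1) := by
          have hqk : Ideal.span {(q : 𝓞 K) ^ k} ≤ 𝔮 ^ k := by
            rw [Ideal.span_singleton_le_iff_mem]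
            exact Ideal.pow_mem_pow hq1 k
          have hq' : Ideal.span {(q : 𝓞 K)} ≤ 𝔮 := by
            rwa [Ideal.span_singleton_le_iff_mem]
          rw [Ideal.sup_mul, Ideal.mul_sup, Ideal.mul_sup]
          refine sup_le (sup_le ?_ ?_) (sup_le ?_ ?_)
          · rw [Ideal.span_singleton_mul_span_singleton, ← pow_succ]
            exact le_sup_left
          · refine le_trans (Ideal.mul_mono_left hqk) ?_
            rw [← pow_add]
            exact le_sup_right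
          · refine le_trans (Ideal.mul_mono_right hq') ?_
            rw [← pow_succ]
            exact le_sup_right
          · rw [← pow_add]
            exact le_trans (Ideal.pow_le_pow_right (by omega)) le_sup_right

set_option maxHeartbeats 1000000 in
theorem exists_psi (hq : q.Prime) (hf : 1 ≤ f) (h𝔮 : 𝔮.IsMaximal) (hq1 : (q : 𝓞 K) ∈ 𝔮)
    (hq2 : (q : 𝓞 K) ∉ 𝔮 ^ 2) (hN : Ideal.absNorm 𝔮 = q ^ f) (m : ℕ) :
    ∃ ψ : MA q f →+* 𝓞 K ⧸ 𝔮 ^ m, Function.Surjective ψ ∧ ∀ x, ψ x = 0 ↔ x ∈ mm q f ^ m := by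
  obtain ⟨hgm, hgd, hgi, hgs⟩ := gq_spec hq hf
  have h𝔮0 : 𝔮 ≠ ⊥ := by
    rintro rfl
    rw [Ideal.absNorm_bot] at hN
    have := hq.pos
    have : 0 < q ^ f := by positivity
    omega
  -- the residue field
  haveI := h𝔮
  letI : Field (𝓞 K ⧸ 𝔮) := Ideal.Quotient.field 𝔮
  haveI hmm := mm_max hq hf
  letI : Field (MA q f ⧸ mm q f) := Ideal.Quotient.field (mm q f)
  have hcard𝔮 : ∀ k, Nat.card (𝓞 K ⧸ 𝔮 ^ k) = (q ^ f) ^ k := by
    intro k; rw [PP.card_quot, hN]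
  have hfin1 : Finite (MA q f ⧸ mm q f) := by
    have := finite_mm hq hf 1
    rwa [pow_one] at this
  have hcard1 : Nat.card (MA q f ⧸ mm q f) = q ^ f := by
    have := card_mm hq hf 1
    rwa [pow_one, pow_one] at this
  have hcard2 : Nat.card (𝓞 K ⧸ 𝔮) = q ^ f := by
    have := hcard𝔮 1
    rwa [pow_one, pow_one] at this
  have hfin2 : Finite (𝓞 K ⧸ 𝔮) := Nat.finite_of_card_ne_zero (by
    rw [hcard2]; have := hq.pos; positivity)
  haveI := Fintype.ofFinite (MA q f ⧸ mm q f)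
  haveI := Fintype.ofFinite (𝓞 K ⧸ 𝔮)
  have e : (MA q f ⧸ mm q f) ≃+* (𝓞 K ⧸ 𝔮) := FiniteField.ringEquivOfCardEq (by
    rw [← Nat.card_eq_fintype_card, ← Nat.card_eq_fintype_card, hcard1, hcard2])
  -- the root
  set φ₀ : MA q f →+* 𝓞 K ⧸ 𝔮 := (e : _ →+* _).comp (Ideal.Quotient.mk (mm q f)) with hφ₀
  obtain ⟨x₀, hx₀⟩ := Ideal.Quotient.mk_surjective (φ₀ (AdjoinRoot.root (gq q f)))
  set F : (𝓞 K)[X] := (gq q f).map (algebraMap ℤ (𝓞 K)) with hF
  have hint : ∀ {S : Type} [CommRing S] (a b : ℤ →+* S), a = b := fun a b => Subsingleton.elim _ _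
  have hmkF : ∀ (G : ℤ[X]) (y : 𝓞 K), Ideal.Quotient.mk 𝔮 ((G.map (algebraMap ℤ (𝓞 K))).eval y) =
      G.eval₂ (Int.castRingHom (𝓞 K ⧸ 𝔮)) (Ideal.Quotient.mk 𝔮 y) := by
    intro G y
    rw [eval_map, hom_eval₂]
    congr 1
  have h0 : F.eval x₀ ∈ 𝔮 := by
    rw [← Ideal.Quotient.eq_zero_iff_mem, hF, hmkF, hx₀]
    have h1 : (gq q f).eval₂ (AdjoinRoot.of (gq q f)) (AdjoinRoot.root (gq q f)) = 0 :=
      AdjoinRoot.eval₂_root _
    have h2 := congrArg φ₀ h1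
    rw [hom_eval₂, map_zero] at h2
    rw [← h2]
    congr 1
    exact hint _ _
  have h1 : F.derivative.eval x₀ ∉ 𝔮 := by
    intro hcon
    rw [← Ideal.Quotient.eq_zero_iff_mem, hF, derivative_map, hmkF] at hcon
    rw [← Ideal.Quotient.eq_zero_iff_mem, hF, hmkF] at h0
    have hq0 : ∀ a : ℤ, a ∈ iq q → Int.castRingHom (𝓞 K ⧸ 𝔮) a = 0 := by
      intro a ha
      obtain ⟨b, rfl⟩ := Ideal.mem_span_singleton.1 ha
      rw [map_mul]
      have : Int.castRingHom (𝓞 K ⧸ 𝔮) (q : ℤ) = 0 := by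
        rw [eq_intCast, Int.cast_natCast]
        have h3 : Ideal.Quotient.mk 𝔮 (q : 𝓞 K) = 0 := Ideal.Quotient.eq_zero_iff_mem.2 hq1
        rwa [map_natCast] at h3
      rw [this, zero_mul]
    set ρ : ℤ ⧸ iq q →+* 𝓞 K ⧸ 𝔮 := Ideal.Quotient.lift (iq q) (Int.castRingHom _) hq0 with hρ
    have hρe : ∀ G : ℤ[X], (G.map (Ideal.Quotient.mk (iq q))).eval₂ ρ (Ideal.Quotient.mk 𝔮 x₀) =
        G.eval₂ (Int.castRingHom (𝓞 K ⧸ 𝔮)) (Ideal.Quotient.mk 𝔮 x₀) := by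
      intro G
      rw [eval₂_map]
      congr 1
    obtain ⟨s, t, hst⟩ := hgs
    have h4 := congrArg (fun p => p.eval₂ ρ (Ideal.Quotient.mk 𝔮 x₀)) hst
    simp only [eval₂_add, eval₂_mul, eval₂_one] at h4
    rw [derivative_map, hρe, hρe, h0, hcon, mul_zero, mul_zero, add_zero] at h4
    exact zero_ne_one h4
  obtain ⟨u, i, hi, hui⟩ := h𝔮.exists_inv h1
  obtain ⟨x, hx, hFx⟩ := PP.newton 𝔮 F x₀ u h0 (by
    have : u * F.derivative.eval x₀ - 1 = -i := by linear_combination hui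
    rw [this]
    exact 𝔮.neg_mem hi) m
  have hFx' : F.eval x ∈ 𝔮 ^ m := Ideal.pow_le_pow_right (Nat.le_succ m) hFx
  -- the homomorphism
  set π := Ideal.Quotient.mk (𝔮 ^ m) with hπ
  set ψ : MA q f →+* 𝓞 K ⧸ 𝔮 ^ m := AdjoinRoot.lift (π.comp (algebraMap ℤ (𝓞 K))) (π x) (by
    rw [← hom_eval₂, ← eval_map, ← hF, hπ]
    exact Ideal.Quotient.eq_zero_iff_mem.2 hFx') with hψ
  have hψm : ∀ y ∈ mm q f ^ m, ψ y = 0 := by
    intro y hy
    rw [mm_pow, Ideal.mem_span_singleton'] at hy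
    obtain ⟨s, rfl⟩ := hy
    rw [map_mul, map_natCast]
    have h3 : π ((q : 𝓞 K) ^ m) = 0 := Ideal.Quotient.eq_zero_iff_mem.2 (Ideal.pow_mem_pow hq1 m)
    have h4 : ((q ^ m : ℕ) : 𝓞 K ⧸ 𝔮 ^ m) = π ((q : 𝓞 K) ^ m) := by
      rw [map_pow, map_natCast]; push_cast; rfl
    rw [h4, h3, mul_zero]
  have hcardm : Nat.card (MA q f ⧸ mm q f ^ m) = Nat.card (𝓞 K ⧸ 𝔮 ^ m) := by
    rw [card_mm hq hf, hcard𝔮]
  rcases Nat.eq_zero_or_pos m with hm0 | hm0
  · refine ⟨ψ, bij_of_card _ ψ hψm (finite_mm hq hf m) hcardm (Or.inr fun y _ => ?_)⟩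
    rw [hm0, pow_zero, Ideal.one_eq_top]
    exact Submodule.mem_top
  -- modulo `𝔮`
  set τ : 𝓞 K ⧸ 𝔮 ^ m →+* 𝓞 K ⧸ 𝔮 := Ideal.Quotient.factor (Ideal.pow_le_self (by omega)) with hτ
  have hτπ : ∀ y, τ (π y) = Ideal.Quotient.mk 𝔮 y := fun y => rfl
  have hres := bij_of_card (mm q f) (τ.comp ψ) (by
      intro y hy
      unfold mm at hy
      rw [Ideal.mem_span_singleton'] at hy
      obtain ⟨s, rfl⟩ := hy
      rw [map_mul, map_natCast]
      have h3 : Ideal.Quotient.mk 𝔮 (q : 𝓞 K) = 0 := Ideal.Quotient.eq_zero_iff_mem.2 hq1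
      rw [map_natCast] at h3
      rw [h3, mul_zero]) hfin1 (by rw [hcard1, hcard2]) (by
      right
      intro y hy
      have h3 : mm q f ≤ RingHom.ker (τ.comp ψ) := by
        unfold mm
        rw [Ideal.span_singleton_le_iff_mem, RingHom.mem_ker, map_natCast]
        have h3 : Ideal.Quotient.mk 𝔮 (q : 𝓞 K) = 0 := Ideal.Quotient.eq_zero_iff_mem.2 hq1
        rwa [map_natCast] at h3
      have h4 := hmm.eq_of_le (RingHom.ker_ne_top _) h3
      rw [h4]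
      exact hy)
  -- approximation
  have happ : ∀ k : ℕ, ∀ y : 𝓞 K, ∃ s : MA q f, ∃ r ∈ 𝔮 ^ k, π y = ψ s + π r := by
    intro k
    induction k with
    | zero =>
      intro y
      exact ⟨0, y, by rw [pow_zero, Ideal.one_eq_top]; exact Submodule.mem_top, by
        rw [map_zero, zero_add]⟩
    | succ k ih =>
      intro y
      obtain ⟨s, r, hr, hs⟩ := ih y
      obtain ⟨r₁, hr₁, r₂, hr₂, hr12⟩ := Submodule.mem_sup.1 (pow_le_sup h𝔮0 hq1 hq2 h𝔮 k hr)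
      obtain ⟨b, rfl⟩ := Ideal.mem_span_singleton'.1 hr₁
      obtain ⟨w, hw⟩ := hres.1 (Ideal.Quotient.mk 𝔮 b)
      obtain ⟨b', hb'⟩ := Ideal.Quotient.mk_surjective (ψ w)
      have hb2 : b - b' ∈ 𝔮 := by
        rw [← Ideal.Quotient.eq, ← hτπ b', ← hw]
        show τ (ψ w) = τ (π b')
        rw [← hb']
      refine ⟨s + ((q ^ k : ℕ) : MA q f) * w, (b - b') * (q : 𝓞 K) ^ k + r₂, ?_, ?_⟩
      · apply Ideal.add_mem _ _ hr₂
        rw [pow_succ' 𝔮]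
        exact Ideal.mul_mem_mul hb2 (Ideal.pow_mem_pow hq1 k)
      · rw [hs, ← hr12, map_add ψ, map_mul ψ, map_natCast, ← hb']
        have h4 : ((q ^ k : ℕ) : 𝓞 K ⧸ 𝔮 ^ m) = π ((q : 𝓞 K) ^ k) := by
          rw [map_pow, map_natCast]; push_cast; rfl
        rw [h4, ← hπ, map_add π, map_add π, map_mul π, map_mul π, map_sub π]
        ring
  have hsurj : Function.Surjective ψ := by
    intro y
    obtain ⟨y', rfl⟩ := Ideal.Quotient.mk_surjective y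
    obtain ⟨s, r, hr, hs⟩ := happ m y'
    refine ⟨s, ?_⟩
    have : π r = 0 := Ideal.Quotient.eq_zero_iff_mem.2 hr
    rw [← hπ, hs, this, add_zero]
  exact ⟨ψ, bij_of_card _ ψ hψm (finite_mm hq hf m) hcardm (Or.inl hsurj)⟩

end

end Pool.Agent.Y673.PQ
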